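import Pool.Agent.P.MP_3ed42e_nt.Defs

/-!
Elementary facts: distance to the nearest integer, sup norms of integer vectors, counting.
-/

namespace Pool.Agent.P.MP_3ed42e_nt

open Finset
open scoped ENNReal

lemma dz_nonneg (t : ℝ) : 0 ≤ dz t := abs_nonneg _

lemma dz_le (t : ℝ) (p : ℤ) : dz t ≤ |t - p| := round_le t p

lemma dz_le_half (t : ℝ) : dz t ≤ 1 / 2 := abs_sub_round t

lemma dz_le_abs (t : ℝ) : dz t ≤ |t| := by simpa using dz_le t 0

lemma dz_add_le (s t : ℝ) : dz (s + t) ≤ dz s + |t| := by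
  have h := dz_le (s + t) (round s)
  have : s + t - (round s : ℝ) = (s - round s) + t := by ring
  rw [this] at h
  exact h.trans (abs_add_le _ _)

lemma dz_int_add (p : ℤ) (t : ℝ) : dz (p + t) = dz t := by
  apply le_antisymm
  · have h := dz_le (p + t) (p + round t)
    have : (p : ℝ) + t - ((p + round t : ℤ) : ℝ) = t - round t := by push_cast; ring
    rwa [this] at h
  · have h := dz_le t (round (p + t) - p)
    have : t - ((round (p + t) - p : ℤ) : ℝ) = p + t - round (p + t) := by push_cast; ring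
    rwa [this] at h

lemma dz_eq_zero_iff (t : ℝ) : dz t = 0 ↔ ∃ p : ℤ, t = p := by
  constructor
  · intro h
    exact ⟨round t, sub_eq_zero.1 (abs_eq_zero.1 h)⟩
  · rintro ⟨p, rfl⟩
    simp [dz]

lemma measurable_dz : Measurable dz := by
  have : dz = fun t : ℝ => min (Int.fract t) (1 - Int.fract t) := by
    funext t; exact abs_sub_round_eq_min t
  rw [this]
  exact measurable_fract.min (measurable_const.sub measurable_fract)

lemma dz_le_dzv {k : ℕ} (v : Fin k → ℝ) (i : Fin k) : dz (v i) ≤ dzv v :=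
  le_ciSup (f := fun i => dz (v i)) (Set.finite_range _).bddAbove i

lemma dzv_le {k : ℕ} (v : Fin (k + 1) → ℝ) {a : ℝ} (h : ∀ i, dz (v i) ≤ a) : dzv v ≤ a :=
  ciSup_le h

lemma dzv_nonneg {k : ℕ} (v : Fin (k + 1) → ℝ) : 0 ≤ dzv v :=
  (dz_nonneg _).trans (dz_le_dzv v 0)

lemma dzv_le_half {k : ℕ} (v : Fin (k + 1) → ℝ) : dzv v ≤ 1 / 2 :=
  dzv_le v fun _ => dz_le_half _

section supN

variable {ι : Type} [Fintype ι]

lemma natAbs_le_supN (q : ι → ℤ) (i : ι) : (q i).natAbs ≤ supN q :=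
  Finset.le_sup (f := fun i => (q i).natAbs) (Finset.mem_univ i)

lemma supN_le_iff {q : ι → ℤ} {k : ℕ} : supN q ≤ k ↔ ∀ i, (q i).natAbs ≤ k := by
  simp [supN, Finset.sup_le_iff]

lemma abs_le_supN (q : ι → ℤ) (i : ι) : |(q i : ℝ)| ≤ supN q := by
  have h := natAbs_le_supN q i
  have : |(q i : ℝ)| = ((q i).natAbs : ℝ) := by
    rw [← Int.cast_abs, Int.abs_eq_natAbs]; simp
  rw [this]; exact_mod_cast h

lemma supN_eq_zero_iff {q : ι → ℤ} : supN q = 0 ↔ q = 0 := by
  rw [← Nat.le_zero, supN_le_iff]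
  constructor
  · intro h; funext i; have := h i; simpa using this
  · rintro rfl i; simp

lemma one_le_supN {q : ι → ℤ} (hq : q ≠ 0) : 1 ≤ supN q :=
  Nat.one_le_iff_ne_zero.2 fun h => hq (supN_eq_zero_iff.1 h)

lemma supN_le_of_abs_le {q : ι → ℤ} {x : ℝ} (hx : 0 ≤ x) (h : ∀ i, |(q i : ℝ)| ≤ x) :
    (supN q : ℝ) ≤ x := by
  have : supN q ≤ ⌊x⌋₊ := by
    rw [supN_le_iff]
    intro i
    apply Nat.le_floor
    have : |(q i : ℝ)| = ((q i).natAbs : ℝ) := by
      rw [← Int.cast_abs, Int.abs_eq_natAbs]; simp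
    rw [← this]; exact h i
  exact (Nat.cast_le.2 this).trans (Nat.floor_le hx)

lemma supN_comp_le {κ : Type} [Fintype κ] (q : ι → ℤ) (f : κ → ι) :
    supN (fun k => q (f k)) ≤ supN q :=
  supN_le_iff.2 fun k => natAbs_le_supN q (f k)

variable [DecidableEq ι]

/-- The integer points of sup norm at most `k`. -/
noncomputable def box (ι : Type) [Fintype ι] [DecidableEq ι] (k : ℕ) : Finset (ι → ℤ) :=
  Fintype.piFinset fun _ => Finset.Icc (-(k : ℤ)) k

lemma mem_box {q : ι → ℤ} {k : ℕ} : q ∈ box ι k ↔ supN q ≤ k := by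
  rw [supN_le_iff, box, Fintype.mem_piFinset]
  refine forall_congr' fun i => ?_
  rw [Finset.mem_Icc]; omega

lemma card_box (k : ℕ) : (box ι k).card = (2 * k + 1) ^ Fintype.card ι := by
  rw [box, Fintype.card_piFinset]
  simp only [Int.card_Icc, Finset.prod_const, Finset.card_univ]
  congr 1
  omega

lemma finite_supN_le (k : ℕ) : {q : ι → ℤ | supN q ≤ k}.Finite :=
  (box ι k).finite_toSet.subset fun _ hq => mem_box.2 hq

/-- The integer points of sup norm exactly `k + 1`. -/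
noncomputable def shell (ι : Type) [Fintype ι] [DecidableEq ι] (k : ℕ) : Finset (ι → ℤ) :=
  box ι (k + 1) \ box ι k

lemma mem_shell {q : ι → ℤ} {k : ℕ} : q ∈ shell ι k ↔ supN q = k + 1 := by
  simp only [shell, Finset.mem_sdiff, mem_box]; omega

lemma card_shell_le (k : ℕ) :
    ((shell ι k).card : ℝ) ≤
      2 * Fintype.card ι * 3 ^ (Fintype.card ι - 1) * ((k + 1 : ℕ) : ℝ) ^ (Fintype.card ι - 1) := by
  have hsub : box ι k ⊆ box ι (k + 1) := fun q hq => mem_box.2 ((mem_box.1 hq).trans k.le_succ)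
  have h1 : ((shell ι k).card : ℝ) =
      (2 * (k + 1 : ℝ) + 1) ^ Fintype.card ι - (2 * (k : ℝ) + 1) ^ Fintype.card ι := by
    rw [shell, Finset.card_sdiff_of_subset hsub, Nat.cast_sub (Finset.card_le_card hsub),
      card_box, card_box]
    push_cast; ring
  have h2 := abs_pow_sub_pow_le (2 * (k + 1 : ℝ) + 1) (2 * (k : ℝ) + 1) (Fintype.card ι)
  have hk : (0 : ℝ) ≤ k := Nat.cast_nonneg k
  have h3 : |2 * (k + 1 : ℝ) + 1 - (2 * (k : ℝ) + 1)| = 2 := by
    rw [show 2 * (k + 1 : ℝ) + 1 - (2 * (k : ℝ) + 1) = 2 by ring]; simp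
  have h4 : max |2 * (k + 1 : ℝ) + 1| |2 * (k : ℝ) + 1| ≤ 3 * ((k + 1 : ℕ) : ℝ) := by
    push_cast
    rw [abs_of_nonneg (by positivity), abs_of_nonneg (by positivity)]
    apply max_le <;> linarith
  have h5 : max |2 * (k + 1 : ℝ) + 1| |2 * (k : ℝ) + 1| ^ (Fintype.card ι - 1) ≤
      (3 * ((k + 1 : ℕ) : ℝ)) ^ (Fintype.card ι - 1) :=
    pow_le_pow_left₀ (le_max_of_le_left (abs_nonneg _)) h4 _
  rw [h1]
  calc _ ≤ |(2 * (k + 1 : ℝ) + 1) ^ Fintype.card ι - (2 * (k : ℝ) + 1) ^ Fintype.card ι| :=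
        le_abs_self _
    _ ≤ 2 * Fintype.card ι * (3 * ((k + 1 : ℕ) : ℝ)) ^ (Fintype.card ι - 1) := by
        refine h2.trans ?_
        rw [h3]
        exact mul_le_mul_of_nonneg_left h5 (by positivity)
    _ = _ := by rw [mul_pow]; ring

/-- A radial series over the nonzero integer vectors converges when the one-dimensional
series weighted by `k ^ (N - 1)` does. -/
lemma summable_radial (f : ℕ → ℝ) (hf : ∀ k, 0 ≤ f (k + 1))
    (hs : Summable fun k : ℕ => ((k + 1 : ℕ) : ℝ) ^ (Fintype.card ι - 1) * f (k + 1)) :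
    Summable fun q : ι → ℤ => if q = 0 then 0 else f (supN q) := by
  set C : ℝ := 2 * Fintype.card ι * 3 ^ (Fintype.card ι - 1) with hC
  have hC0 : 0 ≤ C := by positivity
  have hnn : ∀ q : ι → ℤ, 0 ≤ if q = 0 then 0 else f (supN q) := by
    intro q
    split_ifs with h
    · exact le_rfl
    · obtain ⟨k, hk⟩ := Nat.exists_eq_add_of_le' (one_le_supN h)
      rw [hk]; exact hf k
  refine summable_of_sum_le hnn (c := C * ∑' k : ℕ,
    ((k + 1 : ℕ) : ℝ) ^ (Fintype.card ι - 1) * f (k + 1)) fun u => ?_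
  obtain ⟨K, hK⟩ : ∃ K : ℕ, ∀ q ∈ u, supN q ≤ K :=
    ⟨u.sup supN, fun q hq => Finset.le_sup (f := supN) hq⟩
  have key : ∀ K : ℕ, ∑ q ∈ box ι K, (if q = 0 then 0 else f (supN q)) ≤
      C * ∑ k ∈ range K, ((k + 1 : ℕ) : ℝ) ^ (Fintype.card ι - 1) * f (k + 1) := by
    intro K
    induction K with
    | zero =>
      simp only [range_zero, sum_empty, mul_zero]
      refine le_of_eq (Finset.sum_eq_zero fun q hq => ?_)
      have := mem_box.1 hq
      rw [if_pos (supN_eq_zero_iff.1 (Nat.le_zero.1 this))]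
    | succ K ih =>
      have hsub : box ι K ⊆ box ι (K + 1) :=
        fun q hq => mem_box.2 ((mem_box.1 hq).trans K.le_succ)
      rw [← Finset.sum_sdiff hsub, Finset.sum_range_succ, mul_add, add_comm]
      refine add_le_add ih ?_
      have : ∑ q ∈ box ι (K + 1) \ box ι K, (if q = 0 then 0 else f (supN q)) =
          (shell ι K).card * f (K + 1) := by
        rw [← nsmul_eq_mul, ← Finset.sum_const]
        refine Finset.sum_congr rfl fun q hq => ?_
        have h1 := mem_shell.1 hq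
        have h2 : q ≠ 0 := by
          rintro rfl
          rw [supN_eq_zero_iff.2 rfl] at h1; omega
        rw [if_neg h2, h1]
      rw [this, ← mul_assoc]
      exact mul_le_mul_of_nonneg_right (card_shell_le K) (hf K)
  calc _ ≤ ∑ q ∈ box ι K, (if q = 0 then 0 else f (supN q)) :=
        Finset.sum_le_sum_of_subset_of_nonneg (fun q hq => mem_box.2 (hK q hq))
          fun q _ _ => hnn q
    _ ≤ _ := key K
    _ ≤ _ := by
        refine mul_le_mul_of_nonneg_left ?_ hC0
        exact hs.sum_le_tsum _ fun k _ => mul_nonneg (by positivity) (hf k)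

end supN

/-- Pigeonhole count: a finite set of points in a box with half sides `a i` whose distinct
members differ by at least `2 * a i / K` in some coordinate has at most `(K + 1) ^ N` members. -/
lemma card_le_of_separated {α ι : Type} [Fintype ι] (S : Finset α) (P : α → ι → ℝ) (a : ι → ℝ)
    (ha : ∀ i, 0 < a i) (K : ℝ) (hK : 0 < K) (hS : ∀ s ∈ S, ∀ i, |P s i| ≤ a i)
    (hsep : ∀ s ∈ S, ∀ t ∈ S, (∀ i, |P s i - P t i| < 2 * a i / K) → s = t) :
    (S.card : ℝ) ≤ (K + 1) ^ Fintype.card ι := by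
  classical
  let f : α → ι → ℕ := fun s i => ⌊(P s i + a i) / (2 * a i / K)⌋₊
  have hb : ∀ i, 0 < 2 * a i / K := fun i => by have := ha i; positivity
  have hmaps : ∀ s ∈ S, f s ∈ Fintype.piFinset fun _ : ι => range (⌊K⌋₊ + 1) := by
    intro s hs
    rw [Fintype.mem_piFinset]
    intro i
    rw [Finset.mem_range, Nat.lt_succ_iff]
    apply Nat.floor_le_floor
    rw [div_le_iff₀ (hb i)]
    have h1 := (abs_le.1 (hS s hs i)).2
    have : K * (2 * a i / K) = 2 * a i := by field_simp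
    linarith
  have hinj : Set.InjOn f S := by
    intro s hs t ht hst
    apply hsep s hs t ht
    intro i
    have h0 : ⌊(P s i + a i) / (2 * a i / K)⌋₊ = ⌊(P t i + a i) / (2 * a i / K)⌋₊ :=
      congrFun hst i
    have hs0 : 0 ≤ (P s i + a i) / (2 * a i / K) := by
      have := (abs_le.1 (hS s hs i)).1
      exact div_nonneg (by linarith) (hb i).le
    have ht0 : 0 ≤ (P t i + a i) / (2 * a i / K) := by
      have := (abs_le.1 (hS t ht i)).1
      exact div_nonneg (by linarith) (hb i).le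
    have h1 := Nat.floor_le hs0
    have h2 := Nat.lt_floor_add_one ((P s i + a i) / (2 * a i / K))
    have h3 := Nat.floor_le ht0
    have h4 := Nat.lt_floor_add_one ((P t i + a i) / (2 * a i / K))
    rw [h0] at h1 h2
    have h5 : |(P s i + a i) / (2 * a i / K) - (P t i + a i) / (2 * a i / K)| < 1 := by
      rw [abs_lt]; constructor <;> linarith
    rw [← sub_div, abs_div, abs_of_pos (hb i), div_lt_one (hb i)] at h5
    simpa using h5
  have h := Finset.card_le_card_of_injOn f hmaps hinj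
  rw [Fintype.card_piFinset] at h
  simp only [Finset.card_range, Finset.prod_const, Finset.card_univ] at h
  calc (S.card : ℝ) ≤ ((⌊K⌋₊ + 1 : ℕ) : ℝ) ^ Fintype.card ι := by exact_mod_cast h
    _ ≤ _ := by
      apply pow_le_pow_left₀ (by positivity)
      push_cast
      linarith [Nat.floor_le hK.le]

/-- Dirichlet's theorem for one linear form. -/
lemma dirichlet {ι : Type} [Fintype ι] [Nonempty ι] (y : ι → ℝ) (Q : ℕ) (hQ : 1 ≤ Q) :
    ∃ q : ι → ℤ, q ≠ 0 ∧ supN q ≤ Q ∧
      dz (∑ i, (q i : ℝ) * y i) ≤ ((Q : ℝ) ^ Fintype.card ι)⁻¹ := by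
  classical
  set N := Fintype.card ι with hN
  have hN0 : N ≠ 0 := Fintype.card_ne_zero
  have hQ0 : (0 : ℝ) < (Q : ℝ) ^ N := by positivity
  let S : Finset (ι → ℤ) := Fintype.piFinset fun _ => Finset.Icc (0 : ℤ) Q
  let f : (ι → ℤ) → ℕ := fun q => ⌊Int.fract (∑ i, (q i : ℝ) * y i) * (Q : ℝ) ^ N⌋₊
  have hcard : (range (Q ^ N)).card < S.card := by
    rw [Fintype.card_piFinset]
    simp only [Finset.card_range, Int.card_Icc, Finset.prod_const, Finset.card_univ]
    apply Nat.pow_lt_pow_left _ hN0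
    omega
  have hmaps : ∀ q ∈ S, f q ∈ range (Q ^ N) := by
    intro q _
    rw [Finset.mem_range, Nat.floor_lt (mul_nonneg (Int.fract_nonneg _) hQ0.le)]
    push_cast
    have := Int.fract_lt_one (∑ i, (q i : ℝ) * y i)
    nlinarith
  obtain ⟨q, hq, r, hr, hqr, hf⟩ := Finset.exists_ne_map_eq_of_card_lt_of_maps_to hcard hmaps
  refine ⟨q - r, sub_ne_zero.2 hqr, ?_, ?_⟩
  · rw [supN_le_iff]
    intro i
    have h1 := Finset.mem_Icc.1 (Fintype.mem_piFinset.1 hq i)
    have h2 := Finset.mem_Icc.1 (Fintype.mem_piFinset.1 hr i)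
    simp only [Pi.sub_apply]
    omega
  · set u := ∑ i, (q i : ℝ) * y i with hu
    set v := ∑ i, (r i : ℝ) * y i with hv
    have hsum : ∑ i, ((q - r) i : ℝ) * y i = u - v := by
      rw [hu, hv, ← Finset.sum_sub_distrib]
      refine Finset.sum_congr rfl fun i _ => ?_
      simp only [Pi.sub_apply]; push_cast; ring
    rw [hsum]
    refine (dz_le _ (⌊u⌋ - ⌊v⌋)).trans ?_
    have h0 : ⌊Int.fract u * (Q : ℝ) ^ N⌋₊ = ⌊Int.fract v * (Q : ℝ) ^ N⌋₊ := hf
    have h1 := Nat.floor_le (mul_nonneg (Int.fract_nonneg u) hQ0.le)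
    have h2 := Nat.lt_floor_add_one (Int.fract u * (Q : ℝ) ^ N)
    have h3 := Nat.floor_le (mul_nonneg (Int.fract_nonneg v) hQ0.le)
    have h4 := Nat.lt_floor_add_one (Int.fract v * (Q : ℝ) ^ N)
    rw [h0] at h1 h2
    have h5 : |(Int.fract u - Int.fract v) * (Q : ℝ) ^ N| ≤ 1 := by
      rw [abs_le]; constructor <;> nlinarith
    rw [abs_mul, abs_of_pos hQ0] at h5
    have h6 : u - v - ((⌊u⌋ - ⌊v⌋ : ℤ) : ℝ) = Int.fract u - Int.fract v := by
      simp only [Int.fract]; push_cast; ring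
    rw [h6, inv_eq_one_div, le_div_iff₀ hQ0]
    exact h5

end Pool.Agent.P.MP_3ed42e_nt
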