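import Mathlib

/-!
Definitions for the Groshev problem on affine subspaces.
-/

namespace Pool.Agent.P.MP_3ed42e_nt

/-- Distance from the real number `t` to the nearest integer. -/
noncomputable def dz (t : ℝ) : ℝ := |t - (round t : ℝ)|

/-- Maximum over the coordinates of `v` of the distance to the nearest integer. -/
noncomputable def dzv {k : ℕ} (v : Fin k → ℝ) : ℝ := ⨆ i, dz (v i)

/-- Sup norm of an integer vector, as a natural number. -/
def supN {ι : Type} [Fintype ι] (q : ι → ℤ) : ℕ := Finset.univ.sup fun i => (q i).natAbs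

/-- The Diophantine exponent of `A`: the supremum (in the extended reals) of all real `w` such
that the distance of `A q` to the integer lattice is below `|q| ^ (-w)` for infinitely many
integer vectors `q`. -/
noncomputable def dioExp {d m : ℕ} (A : Matrix (Fin (d + 1)) (Fin m) ℝ) : EReal :=
  sSup ((fun w : ℝ => (w : EReal)) ''
    {w : ℝ | Set.Infinite
      {q : Fin m → ℤ | dzv (A.mulVec fun j => (q j : ℝ)) < (supN q : ℝ) ^ (-w)}})

/-- The point `(x, (1, x) A)` of the affine subspace defined by `A`. -/
def pt {d m : ℕ} (A : Matrix (Fin (d + 1)) (Fin m) ℝ) (x : Fin d → ℝ) : Fin (d + m) → ℝ :=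
  Fin.append x (Matrix.vecMul (Matrix.vecCons 1 x) A)

/-- The set of dually `ψ`-approximable points of `ℝ^n`. -/
def dualApprox (n : ℕ) (ψ : ℕ → ℝ) : Set (Fin n → ℝ) :=
  {y | Set.Infinite {q : Fin n → ℤ | q ≠ 0 ∧ dz (∑ i, (q i : ℝ) * y i) < ψ (supN q)}}

end Pool.Agent.P.MP_3ed42e_nt
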