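import Pool.Agent.P.MP_3ed42e_nt.Basic

/-!
The key lemma: if the exponent of `A` is below `n = d + m`, then the series of
`|q| ^ (-n) / ‖A q‖` over nonzero integer vectors `q` converges.
-/

namespace Pool.Agent.P.MP_3ed42e_nt

open Finset

variable {d m : ℕ}

/-- Distance of `A q` to the integer lattice. -/
noncomputable def nA (A : Matrix (Fin (d + 1)) (Fin m) ℝ) (q : Fin m → ℤ) : ℝ :=
  dzv (A.mulVec fun j => (q j : ℝ))

lemma nA_nonneg (A : Matrix (Fin (d + 1)) (Fin m) ℝ) (q : Fin m → ℤ) : 0 ≤ nA A q :=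
  dzv_nonneg _

lemma nA_le_half (A : Matrix (Fin (d + 1)) (Fin m) ℝ) (q : Fin m → ℤ) : nA A q ≤ 1 / 2 :=
  dzv_le_half _

lemma exists_pos_le_of_finite {α : Type} {S : Set α} (hS : S.Finite) (f : α → ℝ)
    (hf : ∀ s ∈ S, 0 < f s) : ∃ c : ℝ, 0 < c ∧ c ≤ 1 ∧ ∀ s ∈ S, c ≤ f s := by
  rcases S.eq_empty_or_nonempty with rfl | hne
  · exact ⟨1, one_pos, le_rfl, by simp⟩
  · obtain ⟨s, hs, hmin⟩ := Set.exists_min_image S f hS hne
    exact ⟨min 1 (f s), lt_min one_pos (hf s hs), min_le_left _ _,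
      fun t ht => (min_le_right _ _).trans (hmin t ht)⟩

lemma infinite_multiples {ι : Type} {q : ι → ℤ} (hq : q ≠ 0) {S : Set (ι → ℤ)}
    (hS : ∀ k : ℕ, (fun i => ((k + 1 : ℕ) : ℤ) * q i) ∈ S) : S.Infinite := by
  refine Set.infinite_of_injective_forall_mem (f := fun k : ℕ => fun i => ((k + 1 : ℕ) : ℤ) * q i)
    ?_ hS
  intro k l hkl
  obtain ⟨i, hi⟩ := Function.ne_iff.1 hq
  have h := congrFun hkl i
  have h2 := mul_right_cancel₀ hi h
  omega

lemma multiple_ne_zero {ι : Type} {q : ι → ℤ} (hq : q ≠ 0) (k : ℕ) :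
    (fun i => ((k + 1 : ℕ) : ℤ) * q i) ≠ 0 := by
  obtain ⟨i, hi⟩ := Function.ne_iff.1 hq
  intro h
  have h1 := congrFun h i
  simp only [Pi.zero_apply, mul_eq_zero] at h1
  rcases h1 with h1 | h1
  · omega
  · exact hi h1

lemma lower_bound (A : Matrix (Fin (d + 1)) (Fin m) ℝ) (n : ℕ) (hn : 2 ≤ n)
    (hA : dioExp A < (n : EReal)) :
    ∃ w c : ℝ, 1 ≤ w ∧ w < n ∧ 0 < c ∧ ∀ q : Fin m → ℤ, q ≠ 0 →
      c * (supN q : ℝ) ^ (-w) ≤ nA A q := by
  have h1 : max (dioExp A) 1 < (n : EReal) := by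
    refine max_lt hA ?_
    have : (1 : ℕ) < n := hn
    exact_mod_cast this
  obtain ⟨w, hw1, hw2⟩ := EReal.lt_iff_exists_real_btwn.1 h1
  have hw3 : dioExp A < w := lt_of_le_of_lt (le_max_left _ _) hw1
  have hw4 : (1 : ℝ) ≤ w := by
    have : (1 : EReal) < w := lt_of_le_of_lt (le_max_right _ _) hw1
    exact le_of_lt (by exact_mod_cast this)
  have hw5 : w < n := by
    have : (w : EReal) < ((n : ℝ) : EReal) := hw2
    exact_mod_cast this
  have hfin : {q : Fin m → ℤ | nA A q < (supN q : ℝ) ^ (-w)}.Finite := by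
    by_contra hinf
    have : (w : EReal) ≤ dioExp A := le_sSup ⟨w, hinf, rfl⟩
    exact absurd hw3 (not_lt.2 this)
  have hpos : ∀ q : Fin m → ℤ, q ≠ 0 → 0 < nA A q := by
    intro q hq
    by_contra hle
    have h0 : ∀ i, dz ((A.mulVec fun j => (q j : ℝ)) i) = 0 := fun i =>
      le_antisymm ((dz_le_dzv _ i).trans (not_lt.1 hle)) (dz_nonneg _)
    refine infinite_multiples hq (fun k => ?_) hfin
    have h2 : nA A (fun i => ((k + 1 : ℕ) : ℤ) * q i) ≤ 0 := by
      refine dzv_le _ fun i => le_of_eq ?_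
      obtain ⟨p, hp⟩ := (dz_eq_zero_iff _).1 (h0 i)
      refine (dz_eq_zero_iff _).2 ⟨((k + 1 : ℕ) : ℤ) * p, ?_⟩
      simp only [Matrix.mulVec, dotProduct] at hp ⊢
      push_cast
      rw [← hp, Finset.mul_sum]
      exact Finset.sum_congr rfl fun j _ => by ring
    refine lt_of_le_of_lt h2 (Real.rpow_pos_of_pos ?_ _)
    exact_mod_cast one_le_supN (multiple_ne_zero hq k)
  obtain ⟨c, hc0, hc1, hc⟩ := exists_pos_le_of_finite (hfin.subset
    (t := {q : Fin m → ℤ | q ≠ 0 ∧ nA A q < (supN q : ℝ) ^ (-w)}) fun q hq => hq.2) (nA A)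
    fun q hq => hpos q hq.1
  refine ⟨w, c, hw4, hw5, hc0, fun q hq => ?_⟩
  have hq1 : (1 : ℝ) ≤ supN q := by exact_mod_cast one_le_supN hq
  have hr0 : 0 ≤ (supN q : ℝ) ^ (-w) := Real.rpow_nonneg (by linarith) _
  by_cases h : nA A q < (supN q : ℝ) ^ (-w)
  · have hr1 : (supN q : ℝ) ^ (-w) ≤ 1 :=
      Real.rpow_le_one_of_one_le_of_nonpos hq1 (by linarith)
    calc c * (supN q : ℝ) ^ (-w) ≤ c * 1 := mul_le_mul_of_nonneg_left hr1 hc0.le
      _ ≤ _ := by rw [mul_one]; exact hc q ⟨hq, h⟩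
  · calc c * (supN q : ℝ) ^ (-w) ≤ 1 * (supN q : ℝ) ^ (-w) := mul_le_mul_of_nonneg_right hc1 hr0
      _ ≤ _ := by rw [one_mul]; exact not_lt.1 h

lemma count_le (A : Matrix (Fin (d + 1)) (Fin m) ℝ) {w c : ℝ} (hw : 1 ≤ w) (hc : 0 < c)
    (hlb : ∀ q : Fin m → ℤ, q ≠ 0 → c * (supN q : ℝ) ^ (-w) ≤ nA A q)
    {Q δ : ℝ} (hQ : 0 < Q) (hδ : 0 < δ) (S : Finset (Fin m → ℤ))
    (hS : ∀ q ∈ S, q ≠ 0 ∧ (supN q : ℝ) ≤ Q ∧ nA A q ≤ δ) :
    (S.card : ℝ) ≤ 2 ^ (d + m + 1) * (4 * δ * (2 * Q) ^ w / c) ^ ((d + m + 1 : ℝ) / (w + 1)) := by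
  have hX : 0 < 4 * δ * (2 * Q) ^ w / c := by positivity
  rcases S.eq_empty_or_nonempty with rfl | ⟨q0, hq0⟩
  · simp only [Finset.card_empty, Nat.cast_zero]; positivity
  set X := 4 * δ * (2 * Q) ^ w / c with hXdef
  set K := X ^ (1 / (w + 1)) with hK
  have hw1 : 0 < w + 1 := by linarith
  have hK0 : 0 < K := Real.rpow_pos_of_pos hX _
  have hKpow : K ^ (w + 1) = X := by
    rw [hK, ← Real.rpow_mul hX.le, one_div_mul_cancel hw1.ne', Real.rpow_one]
  have hX1 : 1 ≤ X := by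
    obtain ⟨h1, h2, h3⟩ := hS q0 hq0
    have h4 := (hlb q0 h1).trans h3
    have hq1 : (0 : ℝ) < supN q0 := by exact_mod_cast one_le_supN h1
    have h5 : (2 * Q) ^ (-w) ≤ (supN q0 : ℝ) ^ (-w) :=
      Real.rpow_le_rpow_of_nonpos hq1 (by linarith) (by linarith)
    have h6 : c * (2 * Q) ^ (-w) ≤ δ := (mul_le_mul_of_nonneg_left h5 hc.le).trans h4
    rw [Real.rpow_neg (by positivity)] at h6
    have h7 : 0 < (2 * Q) ^ w := by positivity
    rw [hXdef, le_div_iff₀ hc]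
    have h8 : c ≤ δ * (2 * Q) ^ w := by
      rw [← div_eq_mul_inv, div_le_iff₀ h7] at h6; exact h6
    nlinarith
  have hK1 : 1 ≤ K := Real.one_le_rpow hX1 (by positivity)
  let P : (Fin m → ℤ) → Fin m ⊕ Fin (d + 1) → ℝ := fun q =>
    Sum.elim (fun j => (q j : ℝ)) fun i => (A.mulVec fun j => (q j : ℝ)) i -
      round ((A.mulVec fun j => (q j : ℝ)) i)
  let a : Fin m ⊕ Fin (d + 1) → ℝ := Sum.elim (fun _ => Q) fun _ => δ
  have h := card_le_of_separated S P a (by rintro (i | i) <;> assumption) K hK0 ?_ ?_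
  · refine h.trans ?_
    have hcard : Fintype.card (Fin m ⊕ Fin (d + 1)) = d + m + 1 := by simp; ring
    rw [hcard]
    calc (K + 1) ^ (d + m + 1) ≤ (2 * K) ^ (d + m + 1) :=
          pow_le_pow_left₀ (by positivity) (by linarith) _
      _ = _ := by
          rw [mul_pow, hK, ← Real.rpow_natCast (X ^ (1 / (w + 1))), ← Real.rpow_mul hX.le]
          congr 2
          push_cast; field_simp
  · rintro q hq (i | i)
    · exact (abs_le_supN q i).trans (hS q hq).2.1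
    · exact (dz_le_dzv _ i).trans (hS q hq).2.2
  · intro s _ t _ hst
    by_contra hne
    have hu : s - t ≠ 0 := sub_ne_zero.2 hne
    have h1 : (supN (s - t) : ℝ) ≤ 2 * Q / K := by
      refine supN_le_of_abs_le (by positivity) fun i => ?_
      have := hst (Sum.inl i)
      simp only [Pi.sub_apply]
      push_cast
      exact this.le
    have h2 : nA A (s - t) ≤ 2 * δ / K := by
      refine dzv_le _ fun i => ?_
      have h3 := hst (Sum.inr i)
      refine (dz_le _ (round ((A.mulVec fun j => (s j : ℝ)) i) -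
        round ((A.mulVec fun j => (t j : ℝ)) i))).trans (le_of_eq_of_le ?_ h3.le)
      congr 1
      have : (A.mulVec fun j => ((s - t) j : ℝ)) i =
          (A.mulVec fun j => (s j : ℝ)) i - (A.mulVec fun j => (t j : ℝ)) i := by
        simp only [Matrix.mulVec, dotProduct, Pi.sub_apply]
        rw [← Finset.sum_sub_distrib]
        exact Finset.sum_congr rfl fun j _ => by push_cast; ring
      rw [this]
      simp only [P, Sum.elim_inr]
      push_cast; ring
    have hq1 : (0 : ℝ) < supN (s - t) := by exact_mod_cast one_le_supN hu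
    have h5 : (2 * Q / K) ^ (-w) ≤ (supN (s - t) : ℝ) ^ (-w) :=
      Real.rpow_le_rpow_of_nonpos hq1 h1 (by linarith)
    have h6 : c * (2 * Q / K) ^ (-w) ≤ 2 * δ / K :=
      ((mul_le_mul_of_nonneg_left h5 hc.le).trans (hlb _ hu)).trans h2
    rw [Real.rpow_neg (by positivity), Real.div_rpow (by positivity) hK0.le] at h6
    have h7 : 0 < (2 * Q) ^ w := by positivity
    have h8 : 0 < K ^ w := by positivity
    rw [Real.rpow_add_one hK0.ne'] at hKpow
    have h9 : c * (K ^ w * K) ≤ 2 * δ * (2 * Q) ^ w := by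
      rw [inv_div, ← mul_div_assoc, div_le_div_iff₀ h7 hK0] at h6
      linarith
    rw [hKpow, hXdef, mul_div_cancel₀ _ hc.ne'] at h9
    nlinarith

lemma summable_of_fibres {α β : Type} (h : α → ℝ) (h0 : ∀ a, 0 ≤ h a) (cls : α → β) (g : β → ℝ)
    (hg : Summable g) (hb : ∀ b (u : Finset α), (∀ a ∈ u, cls a = b) → ∑ a ∈ u, h a ≤ g b) :
    Summable h := by
  classical
  refine summable_of_sum_le h0 (c := ∑' b, g b) fun u => ?_
  rw [← Finset.sum_fiberwise_of_maps_to (t := u.image cls)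
    (fun a ha => Finset.mem_image_of_mem cls ha)]
  refine (Finset.sum_le_sum fun b _ => hb b _ fun a ha => (Finset.mem_filter.1 ha).2).trans ?_
  refine hg.sum_le_tsum _ fun b _ => ?_
  simpa using hb b ∅ (by simp)

/-- The key lemma. -/
lemma summable_key (A : Matrix (Fin (d + 1)) (Fin m) ℝ) {w c : ℝ} (hw : 1 ≤ w)
    (hwn : w < (d + m : ℕ)) (hc : 0 < c)
    (hlb : ∀ q : Fin m → ℤ, q ≠ 0 → c * (supN q : ℝ) ^ (-w) ≤ nA A q) :
    Summable fun q : Fin m → ℤ =>
      if q = 0 then 0 else ((supN q : ℝ) ^ (d + m))⁻¹ / nA A q := by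
  classical
  have hpos : ∀ q : Fin m → ℤ, q ≠ 0 → 0 < nA A q := fun q hq => by
    refine lt_of_lt_of_le (mul_pos hc (Real.rpow_pos_of_pos ?_ _)) (hlb q hq)
    exact_mod_cast one_le_supN hq
  have hj : ∀ q : Fin m → ℤ, ∃ j : ℕ, q ≠ 0 →
      (1 / 2 : ℝ) ^ (j + 1) < nA A q ∧ nA A q ≤ (1 / 2 : ℝ) ^ j := by
    intro q
    by_cases hq : q = 0
    · exact ⟨0, fun h => absurd hq h⟩
    · obtain ⟨j, hj⟩ := exists_nat_pow_near_of_lt_one (hpos q hq)
        ((nA_le_half A q).trans (by norm_num)) (y := (1 / 2 : ℝ)) (by norm_num) (by norm_num)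
      exact ⟨j, fun _ => hj⟩
  choose J hJ using hj
  set θ : ℝ := (d + m + 1 : ℝ) / (w + 1) with hθ
  have hw1 : 0 < w + 1 := by linarith
  push_cast at hwn
  have hθ1 : 1 < θ := by rw [hθ, one_lt_div hw1]; linarith
  have hθ2 : w * θ < d + m := by
    rw [hθ, ← mul_div_assoc, div_lt_iff₀ hw1]; nlinarith
  set a : ℝ := ((2 : ℝ) ^ w) ^ θ / 2 ^ (d + m) with ha
  set b : ℝ := 2 * (1 / 2 : ℝ) ^ θ with hb
  have ha0 : 0 ≤ a := by positivity
  have hb0 : 0 ≤ b := by positivity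
  have ha1 : a < 1 := by
    rw [ha, div_lt_one (by positivity), ← Real.rpow_mul (by norm_num), ← Real.rpow_natCast]
    apply Real.rpow_lt_rpow_of_exponent_lt (by norm_num)
    push_cast; exact hθ2
  have hb1 : b < 1 := by
    have : (1 / 2 : ℝ) ^ θ < (1 / 2 : ℝ) ^ (1 : ℝ) :=
      Real.rpow_lt_rpow_of_exponent_gt (by norm_num) (by norm_num) hθ1
    rw [Real.rpow_one] at this
    rw [hb]; linarith
  set C : ℝ := 2 ^ (d + m + 1) * (4 / c) ^ θ * (((2 : ℝ) ^ w) ^ θ) ^ 2 * 2 with hC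
  have hg : Summable fun p : ℕ × ℕ => C * (a ^ p.1 * b ^ p.2) :=
    ((summable_geometric_of_lt_one ha0 ha1).mul_of_nonneg (summable_geometric_of_lt_one hb0 hb1)
      (fun _ => by positivity) fun _ => by positivity).mul_left C
  refine summable_of_fibres _ (fun q => ?_) (fun q => (Nat.log 2 (supN q), J q)) _ hg ?_
  · split_ifs
    · exact le_rfl
    · exact div_nonneg (by positivity) (nA_nonneg A q)
  rintro ⟨t, j⟩ u hu
  rw [← Finset.sum_filter_add_sum_filter_not u (fun q => q = 0),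
    Finset.sum_eq_zero (fun q hq => if_pos (Finset.mem_filter.1 hq).2), zero_add]
  set S := u.filter (fun q => ¬q = 0) with hS
  have hS' : ∀ q ∈ S, q ≠ 0 ∧ Nat.log 2 (supN q) = t ∧ J q = j := by
    intro q hq
    obtain ⟨h1, h2⟩ := Finset.mem_filter.1 hq
    have := hu q h1
    exact ⟨h2, congrArg Prod.fst this, congrArg Prod.snd this⟩
  have hcount := count_le A hw hc hlb (Q := 2 ^ (t + 1)) (δ := (1 / 2) ^ j) (by positivity)
    (by positivity) S ?_
  swap
  · intro q hq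
    obtain ⟨h1, h2, h3⟩ := hS' q hq
    refine ⟨h1, ?_, h3 ▸ (hJ q h1).2⟩
    have := Nat.lt_pow_succ_log_self (b := 2) (by norm_num) (supN q)
    rw [h2] at this
    exact_mod_cast this.le
  have hterm : ∀ q ∈ S, (if q = 0 then 0 else ((supN q : ℝ) ^ (d + m))⁻¹ / nA A q) ≤
      (((2 : ℝ) ^ t) ^ (d + m))⁻¹ * 2 ^ (j + 1) := by
    intro q hq
    obtain ⟨h1, h2, h3⟩ := hS' q hq
    rw [if_neg h1, div_eq_mul_inv]
    have h4 : (2 : ℝ) ^ t ≤ supN q := by
      have := Nat.pow_log_le_self 2 (Nat.one_le_iff_ne_zero.1 (one_le_supN h1))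
      rw [h2] at this
      exact_mod_cast this
    refine mul_le_mul ?_ ?_ (inv_nonneg.2 (nA_nonneg A q)) (by positivity)
    · exact inv_anti₀ (by positivity) (pow_le_pow_left₀ (by positivity) h4 _)
    · have h5 := (hJ q h1).1
      rw [h3] at h5
      have h6 := inv_anti₀ (by positivity) h5.le
      rw [one_div, inv_pow, inv_inv] at h6
      exact h6
  refine (Finset.sum_le_card_nsmul _ _ _ hterm).trans ?_
  rw [nsmul_eq_mul]
  refine (mul_le_mul_of_nonneg_right hcount (by positivity)).trans (le_of_eq ?_)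
  have e1 : (4 * (1 / 2 : ℝ) ^ j * (2 * 2 ^ (t + 1)) ^ w / c) ^ θ =
      (4 / c) ^ θ * ((1 / 2 : ℝ) ^ θ) ^ j * (((2 : ℝ) ^ w) ^ θ) ^ (t + 2) := by
    rw [Real.rpow_pow_comm (by norm_num), Real.rpow_pow_comm (by positivity),
      Real.rpow_pow_comm (by norm_num), ← Real.mul_rpow (by positivity) (by positivity),
      ← Real.mul_rpow (by positivity) (by positivity)]
    congr 1
    rw [show (2 : ℝ) * 2 ^ (t + 1) = 2 ^ (t + 2) by ring]
    ring
  rw [← hθ, e1, hC, ha, hb]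
  simp only [div_pow, mul_pow]
  rw [← pow_mul, ← pow_mul, mul_comm t (d + m)]
  field_simp
  ring

end Pool.Agent.P.MP_3ed42e_nt
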