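import Pool.Agent.P.MP_3ed42e_nt.Basic

/-!
Measure of the set where an affine form is close to an integer.
-/

namespace Pool.Agent.P.MP_3ed42e_nt

open MeasureTheory Set
open scoped ENNReal

lemma slab_one {a b α γ η : ℝ} (hab : a ≤ b) (hγ : γ ≠ 0) (hη : 0 ≤ η) :
    volume {t : ℝ | t ∈ Icc a b ∧ dz (α + γ * t) ≤ η} ≤
      ENNReal.ofReal (2 * η * (b - a) + 4 * η / |γ|) := by
  have hγ0 : 0 < |γ| := abs_pos.2 hγ
  have hba : 0 ≤ b - a := sub_nonneg.2 hab
  rcases le_or_gt η (1 / 2) with h | h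
  swap
  · refine (measure_mono (t := Icc a b) fun t ht => ht.1).trans ?_
    rw [Real.volume_Icc]
    apply ENNReal.ofReal_le_ofReal
    have : 0 ≤ 4 * η / |γ| := by positivity
    nlinarith
  set lo := α + γ * ((a + b) / 2) - |γ| * ((b - a) / 2) - η with hlo
  set hi := α + γ * ((a + b) / 2) + |γ| * ((b - a) / 2) + η with hhi
  have hsub : {t : ℝ | t ∈ Icc a b ∧ dz (α + γ * t) ≤ η} ⊆
      ⋃ p ∈ Finset.Icc ⌈lo⌉ ⌊hi⌋, Metric.closedBall ((p - α) / γ) (η / |γ|) := by
    rintro t ⟨ht, hdz⟩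
    simp only [mem_iUnion]
    have h1 : |γ * (t - (a + b) / 2)| ≤ |γ| * ((b - a) / 2) := by
      rw [abs_mul]
      refine mul_le_mul_of_nonneg_left ?_ hγ0.le
      rw [abs_le]; constructor <;> linarith [ht.1, ht.2]
    have h2 := abs_le.1 h1
    have h3 := abs_le.1 hdz
    refine ⟨round (α + γ * t), ?_, ?_⟩
    · rw [Finset.mem_Icc, Int.ceil_le, Int.le_floor]
      constructor <;> nlinarith
    · rw [Metric.mem_closedBall, Real.dist_eq, le_div_iff₀ hγ0, ← abs_mul]
      have : (t - ((round (α + γ * t) : ℝ) - α) / γ) * γ = α + γ * t - round (α + γ * t) := by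
        field_simp; ring
      rw [this]; exact hdz
  refine (measure_mono hsub).trans ((measure_biUnion_finset_le _ _).trans ?_)
  simp only [Real.volume_closedBall, Finset.sum_const, nsmul_eq_mul]
  rw [← ENNReal.ofReal_natCast, ← ENNReal.ofReal_mul (by positivity)]
  apply ENNReal.ofReal_le_ofReal
  have hcard : ((Finset.Icc ⌈lo⌉ ⌊hi⌋).card : ℝ) ≤ |γ| * (b - a) + 2 := by
    rw [Int.card_Icc]
    have h1 := Int.floor_le hi
    have h2 := Int.le_ceil lo
    have h3 : 0 ≤ |γ| * (b - a) := by positivity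
    rcases le_total (⌊hi⌋ + 1 - ⌈lo⌉) 0 with h4 | h4
    · rw [Int.toNat_of_nonpos h4]; push_cast; linarith
    · have : (((⌊hi⌋ + 1 - ⌈lo⌉).toNat : ℤ) : ℝ) = ((⌊hi⌋ + 1 - ⌈lo⌉ : ℤ) : ℝ) := by
        rw [Int.toNat_of_nonneg h4]
      push_cast at this
      rw [this]; linarith
  calc _ ≤ (|γ| * (b - a) + 2) * (2 * (η / |γ|)) :=
        mul_le_mul_of_nonneg_right hcard (by positivity)
    _ = _ := by field_simp; ring

lemma measurable_form {d : ℕ} (α : ℝ) (g : Fin d → ℝ) :
    Measurable fun x : Fin d → ℝ => dz (α + ∑ j, x j * g j) :=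
  measurable_dz.comp (by fun_prop)

lemma slab {d : ℕ} {R α η : ℝ} (hR : 0 ≤ R) (hη : 0 ≤ η) (g : Fin (d + 1) → ℝ) (i : Fin (d + 1))
    (hg : g i ≠ 0) :
    volume {x : Fin (d + 1) → ℝ | x ∈ Metric.closedBall 0 R ∧ dz (α + ∑ j, x j * g j) ≤ η} ≤
      ENNReal.ofReal ((2 * R) ^ d * (4 * η * R + 4 * η / |g i|)) := by
  set E := {x : Fin (d + 1) → ℝ | x ∈ Metric.closedBall 0 R ∧ dz (α + ∑ j, x j * g j) ≤ η}
    with hE
  have hEm : MeasurableSet E :=
    measurableSet_closedBall.inter (measurableSet_le (measurable_form α g) measurable_const)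
  have hp := (volume_preserving_piFinSuccAbove (fun _ : Fin (d + 1) => ℝ) i).symm
  rw [← hp.measure_preimage hEm.nullMeasurableSet, Measure.volume_eq_prod,
    Measure.prod_apply_symm (hp.measurable hEm)]
  have hfib : ∀ y : Fin d → ℝ, volume ((fun t : ℝ => (t, y)) ⁻¹'
      ((MeasurableEquiv.piFinSuccAbove (fun _ : Fin (d + 1) => ℝ) i).symm ⁻¹' E)) ≤
      (Metric.closedBall (0 : Fin d → ℝ) R).indicator
        (fun _ => ENNReal.ofReal (4 * η * R + 4 * η / |g i|)) y := by
    intro y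
    by_cases hy : y ∈ Metric.closedBall (0 : Fin d → ℝ) R
    · rw [indicator_of_mem hy]
      have h := slab_one (a := -R) (b := R) (α := α + ∑ j, y j * g (i.succAbove j))
        (by linarith) hg hη
      refine (measure_mono ?_).trans (h.trans (le_of_eq ?_))
      · rintro t ⟨h1, h2⟩
        rw [mem_closedBall_zero_iff, pi_norm_le_iff_of_nonneg hR] at h1
        have h3 := h1 i
        rw [Fin.sum_univ_succAbove _ i] at h2
        simp only [MeasurableEquiv.piFinSuccAbove_symm_apply, Fin.insertNthEquiv_apply,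
          Fin.insertNth_apply_same, Fin.insertNth_apply_succAbove, Real.norm_eq_abs] at h2 h3
        refine ⟨abs_le.1 h3, ?_⟩
        rw [show α + ∑ j, y j * g (i.succAbove j) + g i * t =
          α + (t * g i + ∑ j, y j * g (i.succAbove j)) by ring]
        exact h2
      · congr 1; ring
    · rw [indicator_of_notMem hy]
      refine le_of_eq (measure_mono_null (t := ∅) ?_ measure_empty)
      rintro t ⟨h1, -⟩
      apply hy
      rw [mem_closedBall_zero_iff, pi_norm_le_iff_of_nonneg hR] at h1 ⊢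
      intro j
      have h3 := h1 (i.succAbove j)
      simpa only [MeasurableEquiv.piFinSuccAbove_symm_apply, Fin.insertNthEquiv_apply,
        Fin.insertNth_apply_succAbove] using h3
  refine (lintegral_mono hfib).trans (le_of_eq ?_)
  rw [lintegral_indicator_const measurableSet_closedBall, Real.volume_pi_closedBall _ hR,
    ← ENNReal.ofReal_mul (by positivity), Fintype.card_fin, mul_comm]

/-- Borel-Cantelli over all boxes: if in every box the measures are dominated by a convergent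
series, then almost every point lies in finitely many of the sets. -/
lemma ae_finite_of_summable {d : ℕ} {ι : Type} [Countable ι] (E : ι → Set (Fin d → ℝ))
    (h : ∀ R : ℕ, ∃ f : ι → ℝ, Summable f ∧ (∀ i, 0 ≤ f i) ∧
      ∀ i, volume {x | x ∈ Metric.closedBall 0 (R : ℝ) ∧ x ∈ E i} ≤ ENNReal.ofReal (f i)) :
    ∀ᵐ x : Fin d → ℝ, {i | x ∈ E i}.Finite := by
  have h1 : ∀ R : ℕ, ∀ᵐ x : Fin d → ℝ,
      {i | x ∈ {x | x ∈ Metric.closedBall 0 (R : ℝ) ∧ x ∈ E i}}.Finite := by
    intro R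
    obtain ⟨f, hf, hf0, hE⟩ := h R
    apply ae_finite_setOfPred_mem
    refine ne_top_of_le_ne_top ?_ (ENNReal.tsum_le_tsum hE)
    rw [← ENNReal.ofReal_tsum_of_nonneg hf0 hf]
    exact ENNReal.ofReal_ne_top
  filter_upwards [ae_all_iff.2 h1] with x hx
  obtain ⟨R, hR⟩ := exists_nat_ge ‖x‖
  refine (hx R).subset fun i hi => ⟨?_, hi⟩
  rwa [mem_closedBall_zero_iff]

end Pool.Agent.P.MP_3ed42e_nt
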