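import Mathlib

/-!
A one-dimensional ubiquity theorem, by the second moment method and the Lebesgue density theorem.
-/

namespace Pool.Agent.P.MP_3ed42e_nt

open MeasureTheory Set Filter Topology
open scoped ENNReal

lemma second_moment {κ : Type} (S : Finset κ) (B : κ → Set ℝ) (hB : ∀ k, MeasurableSet (B k))
    (hfin : ∀ k, volume (B k) ≠ ⊤) (l : ℝ) :
    2 * l * ∑ k ∈ S, volume.real (B k) ≤
      ∑ k ∈ S, ∑ k' ∈ S, volume.real (B k ∩ B k') + l ^ 2 * volume.real (⋃ k ∈ S, B k) := by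
  classical
  have hU : MeasurableSet (⋃ k ∈ S, B k) := S.measurableSet_biUnion fun k _ => hB k
  have hUfin : volume (⋃ k ∈ S, B k) ≠ ⊤ :=
    ne_top_of_le_ne_top (ENNReal.sum_ne_top.2 fun k _ => hfin k) (measure_biUnion_finset_le _ _)
  have hint : ∀ s : Set ℝ, MeasurableSet s → volume s ≠ ⊤ →
      Integrable (s.indicator (1 : ℝ → ℝ)) := fun s hs hs' =>
    (integrableOn_const hs').integrable_indicator hs
  have hint2 : ∀ k k', Integrable ((B k ∩ B k').indicator (1 : ℝ → ℝ)) := fun k k' =>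
    hint _ ((hB k).inter (hB k')) (ne_top_of_le_ne_top (hfin k) (measure_mono inter_subset_left))
  have e1 : ∑ k ∈ S, volume.real (B k) = ∫ x, ∑ k ∈ S, (B k).indicator (1 : ℝ → ℝ) x := by
    rw [integral_finsetSum _ fun k _ => hint _ (hB k) (hfin k)]
    exact Finset.sum_congr rfl fun k _ => (integral_indicator_one (hB k)).symm
  have e2 : ∑ k ∈ S, ∑ k' ∈ S, volume.real (B k ∩ B k') =
      ∫ x, ∑ k ∈ S, ∑ k' ∈ S, (B k ∩ B k').indicator (1 : ℝ → ℝ) x := by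
    rw [integral_finsetSum _ fun k _ => integrable_finsetSum _ fun k' _ => hint2 k k']
    refine Finset.sum_congr rfl fun k _ => ?_
    rw [integral_finsetSum _ fun k' _ => hint2 k k']
    exact Finset.sum_congr rfl fun k' _ => (integral_indicator_one ((hB k).inter (hB k'))).symm
  have i1 : Integrable fun x => ∑ k ∈ S, (B k).indicator (1 : ℝ → ℝ) x :=
    integrable_finsetSum _ fun k _ => hint _ (hB k) (hfin k)
  have i2 : Integrable fun x => ∑ k ∈ S, ∑ k' ∈ S, (B k ∩ B k').indicator (1 : ℝ → ℝ) x :=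
    integrable_finsetSum _ fun k _ => integrable_finsetSum _ fun k' _ => hint2 k k'
  rw [e1, e2, ← integral_indicator_one hU, ← integral_const_mul, ← integral_const_mul,
    ← integral_add i2 ((hint _ hU hUfin).const_mul _)]
  refine integral_mono (i1.const_mul _) (i2.add ((hint _ hU hUfin).const_mul _)) fun x => ?_
  have hsq : ∑ k ∈ S, ∑ k' ∈ S, (B k ∩ B k').indicator (1 : ℝ → ℝ) x =
      (∑ k ∈ S, (B k).indicator (1 : ℝ → ℝ) x) ^ 2 := by
    rw [sq, Finset.sum_mul_sum]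
    refine Finset.sum_congr rfl fun k _ => Finset.sum_congr rfl fun k' _ => ?_
    rw [inter_indicator_one]; rfl
  simp only [hsq]
  by_cases hx : x ∈ ⋃ k ∈ S, B k
  · rw [indicator_of_mem hx, Pi.one_apply]
    nlinarith [sq_nonneg (∑ k ∈ S, (B k).indicator (1 : ℝ → ℝ) x - l)]
  · have : ∑ k ∈ S, (B k).indicator (1 : ℝ → ℝ) x = 0 := by
      refine Finset.sum_eq_zero fun k hk => indicator_of_notMem (fun h => hx ?_) _
      exact mem_biUnion hk h
    rw [this, indicator_of_notMem hx]; simp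

lemma cells_count (I : Finset ℤ) (α : ℤ → ℝ) {ρ : ℝ} (hρ : 0 < ρ)
    (hα : ∀ i ∈ I, ⌊α i / ρ⌋ = i) (z r : ℝ) (hr : 0 ≤ r) (J : Finset ℤ) (hJ : J ⊆ I)
    (hz : ∀ i ∈ J, |α i - z| ≤ r) : (J.card : ℝ) ≤ 2 * r / ρ + 2 := by
  have hsub : J ⊆ Finset.Icc ⌊(z - r) / ρ⌋ ⌊(z + r) / ρ⌋ := by
    intro i hi
    have h := abs_le.1 (hz i hi)
    rw [Finset.mem_Icc, ← hα i (hJ hi)]
    constructor
    · exact Int.floor_le_floor (div_le_div_of_nonneg_right (by linarith) hρ.le)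
    · exact Int.floor_le_floor (div_le_div_of_nonneg_right (by linarith) hρ.le)
  refine (Nat.cast_le.2 (Finset.card_le_card hsub)).trans ?_
  rw [Int.card_Icc]
  have h1 := Int.floor_le ((z + r) / ρ)
  have h2 := Int.lt_floor_add_one ((z - r) / ρ)
  have h3 : 0 ≤ 2 * r / ρ := by positivity
  have h5 : (z + r) / ρ - (z - r) / ρ = 2 * r / ρ := by ring
  rcases le_total (⌊(z + r) / ρ⌋ + 1 - ⌊(z - r) / ρ⌋) 0 with h4 | h4
  · rw [Int.toNat_of_nonpos h4]; push_cast; linarith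
  · have : (((⌊(z + r) / ρ⌋ + 1 - ⌊(z - r) / ρ⌋).toNat : ℤ) : ℝ) =
        ((⌊(z + r) / ρ⌋ + 1 - ⌊(z - r) / ρ⌋ : ℤ) : ℝ) := by
      rw [Int.toNat_of_nonneg h4]
    push_cast at this
    rw [this]; linarith

lemma select_cells (P : Set ℝ) {a b ρ : ℝ} (hρ : 0 < ρ)
    (hub : ENNReal.ofReal ((b - a) / 2) ≤ volume {x | x ∈ Icc a b ∧ ∃ α ∈ P, |x - α| ≤ ρ}) :
    ∃ (I : Finset ℤ) (α : ℤ → ℝ), (∀ i ∈ I, α i ∈ P ∧ α i ∈ Icc (a - ρ) (b + ρ) ∧
      ⌊α i / ρ⌋ = i) ∧ (b - a) / (6 * ρ) ≤ I.card := by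
  classical
  have h1 : ∀ i : ℤ, ∃ α : ℝ, (∃ β ∈ P, β ∈ Icc (a - ρ) (b + ρ) ∧ ⌊β / ρ⌋ = i) →
      α ∈ P ∧ α ∈ Icc (a - ρ) (b + ρ) ∧ ⌊α / ρ⌋ = i := by
    intro i
    by_cases h : ∃ β ∈ P, β ∈ Icc (a - ρ) (b + ρ) ∧ ⌊β / ρ⌋ = i
    · obtain ⟨β, hβ⟩ := h
      exact ⟨β, fun _ => hβ⟩
    · exact ⟨0, fun h' => absurd h' h⟩
  choose α hα using h1
  let I := (Finset.Icc ⌊(a - ρ) / ρ⌋ ⌊(b + ρ) / ρ⌋).filter
    fun i => ∃ β ∈ P, β ∈ Icc (a - ρ) (b + ρ) ∧ ⌊β / ρ⌋ = i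
  refine ⟨I, α, fun i hi => hα i (Finset.mem_filter.1 hi).2, ?_⟩
  have hsub : {x | x ∈ Icc a b ∧ ∃ α ∈ P, |x - α| ≤ ρ} ⊆
      ⋃ i ∈ I, Icc (i * ρ - ρ) (i * ρ + 2 * ρ) := by
    rintro x ⟨hx, β, hβ, hxβ⟩
    have h := abs_le.1 hxβ
    have hβ' : β ∈ Icc (a - ρ) (b + ρ) := ⟨by linarith [hx.1], by linarith [hx.2]⟩
    simp only [mem_iUnion]
    refine ⟨⌊β / ρ⌋, Finset.mem_filter.2 ⟨Finset.mem_Icc.2 ⟨?_, ?_⟩, β, hβ, hβ', rfl⟩, ?_⟩
    · exact Int.floor_le_floor (div_le_div_of_nonneg_right hβ'.1 hρ.le)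
    · exact Int.floor_le_floor (div_le_div_of_nonneg_right hβ'.2 hρ.le)
    · have h2 := Int.floor_le (β / ρ)
      have h3 := Int.lt_floor_add_one (β / ρ)
      rw [le_div_iff₀ hρ] at h2
      rw [div_lt_iff₀ hρ] at h3
      constructor <;> nlinarith
  have h2 := hub.trans ((measure_mono hsub).trans (measure_biUnion_finset_le _ _))
  have h3 : ∀ i : ℤ, volume (Icc (i * ρ - ρ) (i * ρ + 2 * ρ)) = ENNReal.ofReal (3 * ρ) := by
    intro i; rw [Real.volume_Icc]; congr 1; ring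
  simp only [h3, Finset.sum_const, nsmul_eq_mul] at h2
  rw [← ENNReal.ofReal_natCast, ← ENNReal.ofReal_mul (by positivity),
    ENNReal.ofReal_le_ofReal_iff (by positivity)] at h2
  rw [div_le_iff₀ (by positivity)]
  linarith

lemma pair_bound (I J : Finset ℤ) (α β : ℤ → ℝ) {ρ Ψ Φ : ℝ} (hρ : 0 < ρ) (hΨ : 0 ≤ Ψ)
    (hΦ : 0 ≤ Φ) (hβ : ∀ j ∈ J, ⌊β j / ρ⌋ = j) :
    ∑ i ∈ I, ∑ j ∈ J, volume.real (Metric.ball (α i) Ψ ∩ Metric.ball (β j) Φ) ≤
      I.card * ((2 * (Ψ + Φ) / ρ + 2) * (2 * Φ)) := by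
  classical
  rw [← nsmul_eq_mul]
  refine Finset.sum_le_card_nsmul _ _ _ fun i _ => ?_
  rw [← Finset.sum_filter_add_sum_filter_not J (fun j => |β j - α i| ≤ Ψ + Φ)]
  have h0 : ∑ j ∈ J with ¬|β j - α i| ≤ Ψ + Φ,
      volume.real (Metric.ball (α i) Ψ ∩ Metric.ball (β j) Φ) = 0 := by
    refine Finset.sum_eq_zero fun j hj => ?_
    have h := not_le.1 (Finset.mem_filter.1 hj).2
    have : Disjoint (Metric.ball (α i) Ψ) (Metric.ball (β j) Φ) := by
      apply Metric.ball_disjoint_ball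
      rw [dist_comm, Real.dist_eq]; exact h.le
    rw [this.inter_eq]; simp
  rw [h0, add_zero]
  have h1 := cells_count J β hρ hβ (α i) (Ψ + Φ) (by positivity)
    (J.filter fun j => |β j - α i| ≤ Ψ + Φ) (Finset.filter_subset _ _)
    fun j hj => (Finset.mem_filter.1 hj).2
  refine (Finset.sum_le_card_nsmul _ _ (2 * Φ) fun j _ => ?_).trans ?_
  · rw [← Real.volume_real_ball hΦ (a := β j)]
    exact measureReal_mono inter_subset_right measure_ball_lt_top.ne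
  · rw [nsmul_eq_mul]
    exact mul_le_mul_of_nonneg_right h1 (by positivity)

lemma geom_tail (t : ℕ) (T : Finset ℕ) :
    ∑ s ∈ T, (if s ≤ t then (1 / 2 : ℝ) ^ (t - s) else 0) ≤ 2 := by
  classical
  rw [← Finset.sum_filter]
  have h1 : ∑ s ∈ T with s ≤ t, (1 / 2 : ℝ) ^ (t - s) ≤
      ∑ s ∈ Finset.range (t + 1), (1 / 2 : ℝ) ^ (t - s) := by
    refine Finset.sum_le_sum_of_subset_of_nonneg (fun s hs => ?_) fun _ _ _ => by positivity
    rw [Finset.mem_range, Nat.lt_succ_iff]; exact (Finset.mem_filter.1 hs).2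
  refine h1.trans ?_
  have h2 := Finset.sum_range_reflect (fun s => (1 / 2 : ℝ) ^ s) (t + 1)
  simp only [Nat.add_sub_cancel] at h2
  rw [h2]
  have := summable_geometric_two.sum_le_tsum (Finset.range (t + 1)) fun _ _ => by positivity
  rwa [tsum_geometric_two] at this

lemma local_bound (P : ℕ → Set ℝ) (ρ Ψ : ℕ → ℝ) (hρ : ∀ t, 0 < ρ t)
    (hρ2 : ∀ t, ρ (t + 1) ≤ ρ t / 2) (hΨ0 : ∀ t, 0 < Ψ t) (hΨ : ∀ t, Ψ t ≤ ρ t)
    (hdiv : ¬Summable fun t => Ψ t / ρ t) {a b : ℝ} (hab : a < b)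
    (hub : ∀ᶠ t in atTop, ENNReal.ofReal ((b - a) / 2) ≤
      volume {x | x ∈ Icc a b ∧ ∃ α ∈ P t, |x - α| ≤ ρ t}) (M : ℕ) :
    ENNReal.ofReal ((b - a) / 216) ≤
      volume (Icc (a - (b - a)) (b + (b - a)) ∩ {x | ∃ t, M ≤ t ∧ ∃ α ∈ P t, |x - α| < Ψ t}) := by
  classical
  set l := b - a with hl
  have hl0 : 0 < l := sub_pos.2 hab
  have hgeo : ∀ s k, ρ (s + k) ≤ ρ s * (1 / 2) ^ k := by
    intro s k
    induction k with
    | zero => simp
    | succ k ih =>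
      have := hρ2 (s + k)
      rw [← add_assoc, pow_succ]; linarith
  have hsmall : ∀ᶠ t in atTop, ρ t ≤ l / 2 := by
    have h1 : Tendsto (fun k : ℕ => ρ 0 * (1 / 2 : ℝ) ^ k) atTop (𝓝 (ρ 0 * 0)) :=
      (tendsto_pow_atTop_nhds_zero_of_lt_one (by norm_num) (by norm_num)).const_mul _
    rw [mul_zero] at h1
    filter_upwards [h1.eventually (ge_mem_nhds (half_pos hl0))] with t ht
    have := hgeo 0 t
    rw [zero_add] at this
    exact this.trans ht
  obtain ⟨M', hM'⟩ := eventually_atTop.1 (hub.and (hsmall.and (eventually_ge_atTop M)))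
  have hsel : ∀ t, ∃ (I : Finset ℤ) (α : ℤ → ℝ), M' ≤ t →
      (∀ i ∈ I, α i ∈ P t ∧ α i ∈ Icc (a - ρ t) (b + ρ t) ∧ ⌊α i / ρ t⌋ = i) ∧
        (b - a) / (6 * ρ t) ≤ I.card := by
    intro t
    by_cases ht : M' ≤ t
    · obtain ⟨I, α, h⟩ := select_cells (P t) (hρ t) (hM' t ht).1
      exact ⟨I, α, fun _ => h⟩
    · exact ⟨∅, 0, fun h => absurd h ht⟩
  choose I α hI using hsel
  set u : ℕ → ℝ := fun t => Ψ t / ρ t with hu
  have hu0 : ∀ t, 0 < u t := fun t => div_pos (hΨ0 t) (hρ t)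
  obtain ⟨N, hN⟩ : ∃ N, 8 ≤ ∑ t ∈ Finset.Ico M' N, u t := by
    have h1 := (not_summable_iff_tendsto_nat_atTop_of_nonneg fun t => (hu0 t).le).1 hdiv
    obtain ⟨N, hN1, hN2⟩ := ((h1.eventually_ge_atTop (8 + ∑ t ∈ Finset.range M', u t)).and
      (eventually_ge_atTop M')).exists
    refine ⟨N, ?_⟩
    rw [Finset.sum_Ico_eq_sub _ hN2]; linarith
  set T := Finset.Ico M' N with hT
  have hT' : ∀ t ∈ T, M' ≤ t := fun t ht => (Finset.mem_Ico.1 ht).1
  set U := ∑ t ∈ T, u t with hU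
  let S : Finset (Σ _ : ℕ, ℤ) := T.sigma I
  let B : (Σ _ : ℕ, ℤ) → Set ℝ := fun k => Metric.ball (α k.1 k.2) (Ψ k.1)
  have h2 := second_moment S B (fun _ => measurableSet_ball) (fun _ => measure_ball_lt_top.ne)
    (72 * U)
  have hfirst : l * U / 3 ≤ ∑ k ∈ S, volume.real (B k) := by
    rw [Finset.sum_sigma, hU, Finset.mul_sum, Finset.sum_div]
    refine Finset.sum_le_sum fun t ht => ?_
    simp only [B, Real.volume_real_ball (hΨ0 t).le, Finset.sum_const, nsmul_eq_mul]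
    have h3 := (hI t (hT' t ht)).2
    calc l * u t / 3 = l / (6 * ρ t) * (2 * Ψ t) := by
          have := hρ t
          simp only [hu]; field_simp; ring
      _ ≤ _ := mul_le_mul_of_nonneg_right h3 (by linarith [hΨ0 t])
  have hcard : ∀ s ∈ T, ((I s).card : ℝ) ≤ 3 * l / ρ s := by
    intro s hs
    have h3 := hI s (hT' s hs)
    have h4 := cells_count (I s) (α s) (hρ s) (fun i hi => (h3.1 i hi).2.2) ((a + b) / 2)
      (l / 2 + ρ s) (by linarith [hρ s]) (I s) subset_rfl fun i hi => by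
        have := (h3.1 i hi).2.1
        rw [abs_le]; constructor <;> linarith [this.1, this.2]
    refine h4.trans ?_
    have h5 := (hM' s (hT' s hs)).2.1
    have h6 := hρ s
    rw [div_add' _ _ _ h6.ne', div_le_div_iff_of_pos_right h6]
    linarith
  let X : ℕ → ℕ → ℝ := fun s t => ∑ i ∈ I s, ∑ j ∈ I t,
    volume.real (Metric.ball (α s i) (Ψ s) ∩ Metric.ball (α t j) (Ψ t))
  have hXsymm : ∀ s t, X s t = X t s := by
    intro s t
    simp only [X]
    rw [Finset.sum_comm]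
    simp only [inter_comm]
  let e : ℕ → ℕ → ℝ := fun s t => u t * if s ≤ t then (1 / 2 : ℝ) ^ (t - s) else 0
  have he0 : ∀ s t, 0 ≤ e s t := fun s t => by
    refine mul_nonneg (hu0 t).le ?_
    split_ifs
    · positivity
    · exact le_rfl
  have hX1 : ∀ s ∈ T, ∀ t ∈ T, s ≤ t → X s t ≤ 12 * l * (u s * u t) + 24 * l * e s t := by
    intro s hs t ht hst
    have h3 := pair_bound (I s) (I t) (α s) (α t) (hρ t) (hΨ0 s).le (hΨ0 t).le
      fun j hj => ((hI t (hT' t ht)).1 j hj).2.2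
    refine h3.trans ?_
    have h4 : ρ t ≤ ρ s * (1 / 2) ^ (t - s) := by
      have := hgeo s (t - s)
      rwa [Nat.add_sub_cancel' hst] at this
    have hs0 := hρ s
    have ht0 := hρ t
    have h5 : 2 * (Ψ s + Ψ t) / ρ t + 2 ≤ 2 * Ψ s / ρ t + 4 := by
      have : 2 * Ψ t / ρ t ≤ 2 := by rw [div_le_iff₀ ht0]; linarith [hΨ t]
      rw [mul_add, add_div]; linarith
    have h6 := hΨ0 s
    have h7 := hΨ0 t
    calc _ ≤ 3 * l / ρ s * ((2 * Ψ s / ρ t + 4) * (2 * Ψ t)) :=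
          mul_le_mul (hcard s hs) (mul_le_mul_of_nonneg_right h5 (by positivity))
            (by positivity) (by positivity)
      _ = 12 * l * (u s * u t) + 24 * l * (u t * (ρ t / ρ s)) := by
          simp only [hu]; field_simp; ring
      _ ≤ _ := by
          have h8 : ρ t / ρ s ≤ (1 / 2) ^ (t - s) := by rw [div_le_iff₀ hs0]; linarith
          simp only [e, if_pos hst]
          have := mul_le_mul_of_nonneg_left h8 (hu0 t).le
          nlinarith
  have hX2 : ∀ s ∈ T, ∀ t ∈ T, X s t ≤ 12 * l * (u s * u t) + 24 * l * e s t + 24 * l * e t s := by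
    intro s hs t ht
    rcases le_total s t with h | h
    · have := hX1 s hs t ht h
      have := mul_nonneg hl0.le (he0 t s)
      linarith
    · have := hX1 t ht s hs h
      have := mul_nonneg hl0.le (he0 s t)
      rw [hXsymm]; linarith
  have hesum : ∑ s ∈ T, ∑ t ∈ T, e s t ≤ 2 * U := by
    rw [Finset.sum_comm, hU, Finset.mul_sum]
    refine Finset.sum_le_sum fun t _ => ?_
    simp only [e]
    rw [← Finset.mul_sum, mul_comm]
    exact mul_le_mul_of_nonneg_right (geom_tail t T) (hu0 t).le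
  have hsecond : ∑ k ∈ S, ∑ k' ∈ S, volume.real (B k ∩ B k') ≤ 12 * l * U ^ 2 + 96 * l * U := by
    have e1 : ∑ k ∈ S, ∑ k' ∈ S, volume.real (B k ∩ B k') = ∑ s ∈ T, ∑ t ∈ T, X s t := by
      rw [Finset.sum_sigma]
      refine Finset.sum_congr rfl fun s _ => ?_
      simp only [S, Finset.sum_sigma]
      rw [Finset.sum_comm]
    rw [e1]
    refine (Finset.sum_le_sum fun s hs => Finset.sum_le_sum fun t ht => hX2 s hs t ht).trans ?_
    simp only [Finset.sum_add_distrib, ← Finset.mul_sum]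
    have e2 : ∑ s ∈ T, ∑ t ∈ T, e t s = ∑ s ∈ T, ∑ t ∈ T, e s t := Finset.sum_comm
    rw [e2, ← Finset.sum_mul, ← hU]
    nlinarith
  have hU0 : 0 < U := by linarith
  have h3 : l / 216 ≤ volume.real (⋃ k ∈ S, B k) := by
    have h4 : 24 * l * U ^ 2 ≤ (72 * U) ^ 2 * volume.real (⋃ k ∈ S, B k) := by
      have h5 : 96 * l * U ≤ 12 * l * U ^ 2 := by nlinarith [mul_pos hl0 hU0]
      have h6 : 2 * (72 * U) * (l * U / 3) ≤ 2 * (72 * U) * ∑ k ∈ S, volume.real (B k) :=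
        mul_le_mul_of_nonneg_left hfirst (by positivity)
      nlinarith
    have h5 : 0 < U ^ 2 := by positivity
    by_contra hlt
    have := mul_lt_mul_of_pos_left (not_le.1 hlt) h5
    nlinarith
  refine (ENNReal.ofReal_le_ofReal h3).trans (ENNReal.ofReal_toReal_le.trans (measure_mono ?_))
  intro x hx
  simp only [mem_iUnion] at hx
  obtain ⟨⟨t, i⟩, hk, hx⟩ := hx
  obtain ⟨ht, hi⟩ := Finset.mem_sigma.1 hk
  have h4 := (hI t (hT' t ht)).1 i hi
  have h5 : |x - α t i| < Ψ t := hx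
  have h6 := hM' t (hT' t ht)
  refine ⟨?_, t, h6.2.2, α t i, h4.1, h5⟩
  have h7 := abs_lt.1 h5
  have h8 := hΨ t
  constructor <;> linarith [h4.2.1.1, h4.2.1.2, h6.2.1]

lemma null_compl_of_local {U : Set ℝ} (hU : MeasurableSet U)
    (h : ∀ a b : ℝ, a < b →
      ENNReal.ofReal ((b - a) / 216) ≤ volume (Icc (a - (b - a)) (b + (b - a)) ∩ U)) :
    ∀ᵐ x : ℝ, x ∈ U := by
  have h1 := Besicovitch.ae_tendsto_measure_inter_div volume Uᶜ
  have h2 : ∀ᵐ x ∂volume.restrict Uᶜ, False := by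
    filter_upwards [h1] with x hx
    have h3 : ∀ᶠ r in 𝓝[>] (0 : ℝ), volume (Uᶜ ∩ Metric.closedBall x r) /
        volume (Metric.closedBall x r) ≤ ENNReal.ofReal (647 / 648) := by
      filter_upwards [self_mem_nhdsWithin] with r hr
      have hr0 : 0 < r := hr
      have h4 := h (x - r / 3) (x + r / 3) (by linarith)
      have h5 : Icc (x - r / 3 - (x + r / 3 - (x - r / 3))) (x + r / 3 + (x + r / 3 - (x - r / 3)))
          = Metric.closedBall x r := by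
        rw [Real.closedBall_eq_Icc]; congr 1 <;> ring
      rw [h5] at h4
      have h6 := measure_inter_add_sdiff (μ := volume) (Metric.closedBall x r) hU
      rw [Real.volume_closedBall] at h6 ⊢
      rw [ENNReal.div_le_iff (by simpa using hr0) ENNReal.ofReal_ne_top,
        ← ENNReal.ofReal_mul (by norm_num), inter_comm]
      have h7 : ENNReal.ofReal ((x + r / 3 - (x - r / 3)) / 216) +
          volume (Metric.closedBall x r ∩ Uᶜ) ≤ ENNReal.ofReal ((x + r / 3 - (x - r / 3)) / 216) +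
          ENNReal.ofReal (647 / 648 * (2 * r)) := by
        rw [← ENNReal.ofReal_add (by linarith) (by linarith)]
        refine (add_le_add h4 le_rfl).trans (le_of_eq (h6.trans ?_))
        congr 1; ring
      exact (ENNReal.add_le_add_iff_left ENNReal.ofReal_ne_top).1 h7
    have h4 := le_of_tendsto hx h3
    rw [← ENNReal.ofReal_one, ENNReal.ofReal_le_ofReal_iff (by norm_num)] at h4
    norm_num at h4
  rw [ae_iff] at h2 ⊢
  simp only [not_false_eq_true, ofPred_true, Measure.restrict_apply_univ] at h2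
  exact h2

/-- The ubiquity theorem on the real line. -/
theorem ubiquity (P : ℕ → Set ℝ) (ρ Ψ : ℕ → ℝ) (hρ : ∀ t, 0 < ρ t)
    (hρ2 : ∀ t, ρ (t + 1) ≤ ρ t / 2) (hΨ0 : ∀ t, 0 < Ψ t) (hΨ : ∀ t, Ψ t ≤ ρ t)
    (hdiv : ¬Summable fun t => Ψ t / ρ t)
    (hub : ∀ a b : ℝ, a < b → ∀ᶠ t in atTop, ENNReal.ofReal ((b - a) / 2) ≤
      volume {x | x ∈ Icc a b ∧ ∃ α ∈ P t, |x - α| ≤ ρ t}) :
    ∀ᵐ x : ℝ, ∀ M : ℕ, ∃ t, M ≤ t ∧ ∃ α ∈ P t, |x - α| < Ψ t := by
  rw [ae_all_iff]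
  intro M
  refine null_compl_of_local (U := {x | ∃ t, M ≤ t ∧ ∃ α ∈ P t, |x - α| < Ψ t}) ?_
    fun a b hab => local_bound P ρ Ψ hρ hρ2 hΨ0 hΨ hdiv hab (hub a b hab) M
  apply IsOpen.measurableSet
  have : {x | ∃ t, M ≤ t ∧ ∃ α ∈ P t, |x - α| < Ψ t} =
      ⋃ t, ⋃ (_ : M ≤ t), ⋃ α ∈ P t, Metric.ball α (Ψ t) := by
    ext x; simp [Real.dist_eq]
  rw [this]
  exact isOpen_iUnion fun t => isOpen_iUnion fun _ => isOpen_biUnion fun _ _ => Metric.isOpen_ball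

end Pool.Agent.P.MP_3ed42e_nt
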