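import Pool.Agent.P.MP_3ed42e_nt.Key
import Pool.Agent.P.MP_3ed42e_nt.Slab
import Pool.Agent.P.MP_3ed42e_nt.Ubiq

/-!
The divergence statement on a single line `t ↦ u + t v` of `ℝ^n`.
-/

namespace Pool.Agent.P.MP_3ed42e_nt

open MeasureTheory Set Filter Topology
open scoped ENNReal

variable {ι : Type} [Fintype ι] [DecidableEq ι]

lemma fibre_card (i0 : ι) (v : ι → ℝ) (hv : v i0 = 1) {X : ℝ} (hX : 0 ≤ X)
    (r : {i // i ≠ i0} → ℤ) (S : Finset (ι → ℤ))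
    (hS : ∀ q ∈ S, (fun i : {i // i ≠ i0} => q i) = r ∧ |∑ i, (q i : ℝ) * v i| ≤ X) :
    (S.card : ℝ) ≤ 2 * X + 2 := by
  have hinj : Set.InjOn (fun q : ι → ℤ => q i0) S := by
    intro q hq q' hq' h
    funext i
    by_cases hi : i = i0
    · rw [hi]; exact h
    · exact (congrFun (hS q hq).1 ⟨i, hi⟩).trans (congrFun (hS q' hq').1 ⟨i, hi⟩).symm
  rw [← Finset.card_image_of_injOn hinj]
  have h := cells_count (S.image fun q => q i0) (fun i => (i : ℝ)) one_pos (fun i _ => by simp)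
    (-∑ i : {i // i ≠ i0}, (r i : ℝ) * v i) X hX _ subset_rfl ?_
  · simpa using h
  · intro j hj
    obtain ⟨q, hq, rfl⟩ := Finset.mem_image.1 hj
    obtain ⟨h1, h2⟩ := hS q hq
    rw [Fintype.sum_eq_add_sum_subtype_ne _ i0, hv, mul_one] at h2
    rw [← h1, sub_neg_eq_add]
    exact h2

lemma card_small_slope (i0 : ι) (v : ι → ℝ) (hv : v i0 = 1) {X : ℝ} (hX : 0 ≤ X) (Q : ℕ)
    (S : Finset (ι → ℤ)) (hS : ∀ q ∈ S, supN q ≤ Q ∧ |∑ i, (q i : ℝ) * v i| ≤ X) :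
    (S.card : ℝ) ≤ (2 * X + 2) * (2 * Q + 1) ^ (Fintype.card ι - 1) := by
  have h := Finset.card_le_mul_card_image_of_maps_to (s := S) (t := box {i // i ≠ i0} Q)
    (f := fun q => fun i : {i // i ≠ i0} => q i)
    (fun q hq => mem_box.2 ((supN_comp_le q _).trans (hS q hq).1)) ⌊2 * X + 2⌋₊ ?_
  · rw [card_box] at h
    have hc : Fintype.card {i // i ≠ i0} = Fintype.card ι - 1 := by simp
    rw [hc] at h
    calc (S.card : ℝ) ≤ ((⌊2 * X + 2⌋₊ * (2 * Q + 1) ^ (Fintype.card ι - 1) : ℕ) : ℝ) := by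
          exact_mod_cast h
      _ ≤ _ := by
          push_cast
          exact mul_le_mul_of_nonneg_right (Nat.floor_le (by positivity)) (by positivity)
  · intro r _
    apply Nat.le_floor
    exact fibre_card i0 v hv hX r _ fun q hq =>
      ⟨(Finset.mem_filter.1 hq).2, (hS q (Finset.mem_filter.1 hq).1).2⟩

lemma summable_small_slope (i0 : ι) (v : ι → ℝ) (hv : v i0 = 1) (hn : 2 ≤ Fintype.card ι)
    {X : ℝ} (hX : 0 ≤ X) :
    Summable fun q : ι → ℤ => if q ≠ 0 ∧ |∑ i, (q i : ℝ) * v i| ≤ X then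
      ((supN q : ℝ) ^ Fintype.card ι)⁻¹ else 0 := by
  classical
  have hc : Fintype.card {i // i ≠ i0} = Fintype.card ι - 1 := by simp
  have h1 := summable_radial (ι := {i // i ≠ i0}) (fun k => ((k : ℝ) ^ Fintype.card ι)⁻¹)
    (fun k => by positivity) (by
      rw [hc]
      have h2 : Summable fun k : ℕ => 1 / ((k + 1 : ℕ) : ℝ) ^ 2 :=
        (summable_nat_add_iff (f := fun k : ℕ => 1 / (k : ℝ) ^ 2) 1).2
          (Real.summable_one_div_nat_pow.2 one_lt_two)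
      refine h2.congr fun k => ?_
      obtain ⟨N, hN⟩ := Nat.exists_eq_add_of_le' hn
      rw [hN, show N + 2 - 1 - 1 = N by omega]
      field_simp
      ring)
  have h2 : Summable fun r : {i // i ≠ i0} → ℤ => if r = 0 then (1 : ℝ) else 0 :=
    (hasSum_ite_eq (0 : {i // i ≠ i0} → ℤ) (1 : ℝ)).summable
  refine summable_of_fibres _ (fun q => ?_) (fun q => fun i : {i // i ≠ i0} => q i) _
    ((h1.add h2).mul_left (2 * X + 2)) fun r u hu => ?_
  · split_ifs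
    · positivity
    · exact le_rfl
  rw [← Finset.sum_filter]
  have h3 := fibre_card i0 v hv hX r (u.filter fun q => q ≠ 0 ∧ |∑ i, (q i : ℝ) * v i| ≤ X)
    fun q hq => ⟨hu q (Finset.mem_filter.1 hq).1, (Finset.mem_filter.1 hq).2.2⟩
  refine (Finset.sum_le_card_nsmul _ _ ((if r = 0 then 0 else ((supN r : ℝ) ^ Fintype.card ι)⁻¹) +
    if r = 0 then (1 : ℝ) else 0) fun q hq => ?_).trans ?_
  · obtain ⟨h4, h5, -⟩ := Finset.mem_filter.1 hq
    split_ifs with hr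
    · rw [zero_add]
      have : (1 : ℝ) ≤ supN q := by exact_mod_cast one_le_supN h5
      exact inv_le_one_of_one_le₀ (one_le_pow₀ this)
    · rw [add_zero]
      have h6 : (0 : ℝ) < supN r := by exact_mod_cast one_le_supN hr
      refine inv_anti₀ (by positivity) (pow_le_pow_left₀ h6.le ?_ _)
      rw [← hu q h4]
      exact_mod_cast supN_comp_le q _
  · rw [nsmul_eq_mul]
    refine mul_le_mul_of_nonneg_right h3 ?_
    split_ifs <;> positivity

lemma summable_of_dyadic {n : ℕ} (hn : 1 ≤ n) (ψ : ℕ → ℝ) (hpos : ∀ k, 1 ≤ k → 0 < ψ k)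
    (hmono : ∀ k l, 1 ≤ k → k ≤ l → ψ l ≤ ψ k)
    (h : Summable fun t : ℕ => ψ (2 ^ t) * ((2 : ℝ) ^ t) ^ n) :
    Summable fun k : ℕ => ((k + 1 : ℕ) : ℝ) ^ (n - 1) * ψ (k + 1) := by
  refine summable_of_fibres _ (fun k => mul_nonneg (by positivity) (hpos _ (by omega)).le)
    (fun k => Nat.log 2 (k + 1)) _ (h.mul_left (2 ^ n)) fun t u hu => ?_
  have h1 : ∀ k ∈ u, 2 ^ t ≤ k + 1 ∧ k + 1 < 2 ^ (t + 1) := fun k hk => by
    rw [← hu k hk]
    exact ⟨Nat.pow_log_le_self 2 (by omega), Nat.lt_pow_succ_log_self (by norm_num) _⟩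
  have h2 : u.card ≤ 2 ^ (t + 1) := by
    rw [← Finset.card_range (2 ^ (t + 1))]
    exact Finset.card_le_card fun k hk => Finset.mem_range.2 (by have := h1 k hk; omega)
  have h0 := (hpos (2 ^ t) Nat.one_le_two_pow).le
  refine (Finset.sum_le_card_nsmul _ _ (((2 : ℝ) ^ (t + 1)) ^ (n - 1) * ψ (2 ^ t))
    fun k hk => ?_).trans ?_
  · refine mul_le_mul (pow_le_pow_left₀ (by positivity) ?_ _)
      (hmono _ _ Nat.one_le_two_pow (h1 k hk).1) (hpos _ (by omega)).le (by positivity)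
    exact_mod_cast (h1 k hk).2.le
  · rw [nsmul_eq_mul]
    have h3 : (u.card : ℝ) ≤ 2 ^ (t + 1) := by exact_mod_cast h2
    refine (mul_le_mul_of_nonneg_right h3 (by positivity)).trans (le_of_eq ?_)
    obtain ⟨N, rfl⟩ := Nat.exists_eq_add_of_le' hn
    simp only [Nat.add_sub_cancel]
    ring

omit [DecidableEq ι] in
lemma infinite_of_exact (y : ι → ℝ) (ψ : ℕ → ℝ) (hpos : ∀ k, 1 ≤ k → 0 < ψ k) {q : ι → ℤ}
    (hq : q ≠ 0) (h : dz (∑ i, (q i : ℝ) * y i) = 0) :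
    {q : ι → ℤ | q ≠ 0 ∧ dz (∑ i, (q i : ℝ) * y i) < ψ (supN q)}.Infinite := by
  refine infinite_multiples hq fun k => ⟨multiple_ne_zero hq k, ?_⟩
  obtain ⟨p, hp⟩ := (dz_eq_zero_iff _).1 h
  refine lt_of_eq_of_lt ((dz_eq_zero_iff _).2 ⟨((k + 1 : ℕ) : ℤ) * p, ?_⟩)
    (hpos _ (one_le_supN (multiple_ne_zero hq k)))
  push_cast
  rw [← hp, Finset.mul_sum]
  exact Finset.sum_congr rfl fun j _ => by ring

omit [DecidableEq ι] in
lemma line_form (u v : ι → ℝ) (q : ι → ℤ) (t : ℝ) :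
    ∑ i, (q i : ℝ) * (u i + t * v i) = ∑ i, (q i : ℝ) * u i + (∑ i, (q i : ℝ) * v i) * t := by
  rw [Finset.sum_mul, ← Finset.sum_add_distrib]
  exact Finset.sum_congr rfl fun j _ => by ring

/-- Local ubiquity of the roots of the affine forms on a line. -/
lemma line_ubiquitous (i0 : ι) (u v : ι → ℝ) (hv : v i0 = 1)
    (hne : ∀ᵐ t : ℝ, ∀ q : ι → ℤ, q ≠ 0 → dz (∑ i, (q i : ℝ) * (u i + t * v i)) ≠ 0)
    (hT : ∀ T : ℕ, ∀ᵐ t : ℝ, {q : ι → ℤ | q ≠ 0 ∧ |∑ i, (q i : ℝ) * v i| ≤ T ∧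
      dz (∑ i, (q i : ℝ) * (u i + t * v i)) ≤ ((supN q : ℝ) ^ Fintype.card ι)⁻¹}.Finite)
    {a b : ℝ} (hab : a < b) :
    ∀ᶠ t : ℕ in atTop, ENNReal.ofReal ((b - a) / 2) ≤
      volume {x | x ∈ Icc a b ∧ ∃ α ∈ {α : ℝ | ∃ q : ι → ℤ, q ≠ 0 ∧ supN q ≤ 2 ^ t ∧
        dz (∑ i, (q i : ℝ) * (u i + α * v i)) = 0}, |x - α| ≤
          ((32 * 3 ^ Fintype.card ι)⁻¹ * ((2 : ℝ) ^ t) ^ (Fintype.card ι + 1))⁻¹} := by
  classical
  have : Nonempty ι := ⟨i0⟩
  set n := Fintype.card ι with hn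
  have hn1 : 1 ≤ n := Fintype.card_pos
  set c : ℝ := (32 * 3 ^ n)⁻¹ with hc
  have hc0 : 0 < c := by positivity
  set l := b - a with hl
  have hl0 : 0 < l := sub_pos.2 hab
  obtain ⟨T, hT1⟩ := exists_nat_ge (1 / l)
  let L : (ι → ℤ) → ℝ → ℝ := fun q x => dz (∑ i, (q i : ℝ) * (u i + x * v i))
  have hLm : ∀ q, Measurable (L q) := fun q => measurable_dz.comp (by fun_prop)
  let Z : ℕ → Set ℝ := fun k => {x | x ∈ Icc a b ∧ ∃ q : ι → ℤ, (q ≠ 0 ∧
    |∑ i, (q i : ℝ) * v i| ≤ T ∧ L q x ≤ ((supN q : ℝ) ^ n)⁻¹) ∧ L q x ≤ (1 / 2) ^ k}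
  have hZm : ∀ k, MeasurableSet (Z k) := by
    intro k
    refine measurableSet_Icc.inter ?_
    have : {x | ∃ q : ι → ℤ, (q ≠ 0 ∧ |∑ i, (q i : ℝ) * v i| ≤ T ∧
        L q x ≤ ((supN q : ℝ) ^ n)⁻¹) ∧ L q x ≤ (1 / 2) ^ k} =
        ⋃ q : ι → ℤ, ({_x | q ≠ 0 ∧ |∑ i, (q i : ℝ) * v i| ≤ T} ∩
          {x | L q x ≤ ((supN q : ℝ) ^ n)⁻¹}) ∩ {x | L q x ≤ (1 / 2) ^ k} := by
      ext x; simp [and_assoc]
    change MeasurableSet {x | ∃ q : ι → ℤ, (q ≠ 0 ∧ |∑ i, (q i : ℝ) * v i| ≤ T ∧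
        L q x ≤ ((supN q : ℝ) ^ n)⁻¹) ∧ L q x ≤ (1 / 2) ^ k}
    rw [this]
    exact MeasurableSet.iUnion fun q => ((MeasurableSet.const _).inter
      (measurableSet_le (hLm q) measurable_const)).inter (measurableSet_le (hLm q) measurable_const)
  have hZanti : Antitone Z := by
    rintro k k' hk x ⟨h1, q, h2, h3⟩
    exact ⟨h1, q, h2, h3.trans (pow_le_pow_of_le_one (by norm_num) (by norm_num) hk)⟩
  have hZ0 : volume (⋂ k, Z k) = 0 := by
    rw [measure_eq_zero_iff_ae_notMem]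
    filter_upwards [hne, hT T] with x h1 h2 hx
    obtain ⟨δ, hδ0, -, hδ⟩ := exists_pos_le_of_finite h2 (fun q => L q x)
      fun q hq => lt_of_le_of_ne (dz_nonneg _) (h1 q hq.1).symm
    obtain ⟨k, hk⟩ := exists_pow_lt_of_lt_one hδ0 (y := (1 / 2 : ℝ)) (by norm_num)
    obtain ⟨-, q, h3, h4⟩ := mem_iInter.1 hx k
    have := hδ q h3
    linarith
  have hZlim := tendsto_measure_iInter_atTop (μ := volume) (fun k => (hZm k).nullMeasurableSet)
    hZanti ⟨0, ne_top_of_le_ne_top (measure_Icc_lt_top (a := a) (b := b)).ne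
      (measure_mono fun x hx => hx.1)⟩
  rw [hZ0] at hZlim
  have hZev : ∀ᶠ k in atTop, volume (Z k) ≤ ENNReal.ofReal (l / 4) :=
    hZlim.eventually (ge_mem_nhds (by simpa using hl0))
  have hbig : ∀ᶠ k : ℕ in atTop, 1 ≤ c * 2 ^ k :=
    ((tendsto_pow_atTop_atTop_of_one_lt (one_lt_two (α := ℝ))).const_mul_atTop hc0).eventually_ge_atTop 1
  filter_upwards [hZev, hbig] with k hk1 hk2
  set Q : ℝ := 2 ^ k with hQ
  have hQ1 : 1 ≤ Q := one_le_pow₀ one_le_two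
  have hQ0 : 0 < Q := by linarith
  let S : Finset (ι → ℤ) := (box ι (2 ^ k)).filter fun q =>
    (T : ℝ) < |∑ i, (q i : ℝ) * v i| ∧ |∑ i, (q i : ℝ) * v i| ≤ c * Q
  let Y : Set ℝ := ⋃ q ∈ S, {x | x ∈ Icc a b ∧ L q x ≤ (Q ^ n)⁻¹}
  have hY : volume Y ≤ ENNReal.ofReal (l / 4) := by
    refine (measure_biUnion_finset_le _ _).trans ((Finset.sum_le_card_nsmul _ _
      (ENNReal.ofReal (6 * (Q ^ n)⁻¹ * l)) fun q hq => ?_).trans ?_)
    · have h1 := (Finset.mem_filter.1 hq).2.1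
      have h2 : 1 / l < |∑ i, (q i : ℝ) * v i| := lt_of_le_of_lt hT1 h1
      have h3 : 0 < |∑ i, (q i : ℝ) * v i| := lt_trans (by positivity) h2
      have h4 := slab_one (α := ∑ i, (q i : ℝ) * u i) (η := (Q ^ n)⁻¹) hab.le (abs_pos.1 h3)
        (by positivity)
      simp only [L, line_form]
      refine h4.trans (ENNReal.ofReal_le_ofReal ?_)
      have h5 : 4 * (Q ^ n)⁻¹ / |∑ i, (q i : ℝ) * v i| ≤ 4 * (Q ^ n)⁻¹ * l := by
        rw [div_le_iff₀ h3, mul_assoc _ l]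
        rw [div_lt_iff₀ hl0] at h2
        refine le_mul_of_one_le_right (by positivity) ?_
        linarith
      linarith
    · rw [nsmul_eq_mul, ← ENNReal.ofReal_natCast, ← ENNReal.ofReal_mul (by positivity)]
      apply ENNReal.ofReal_le_ofReal
      have h1 := card_small_slope i0 v hv (X := c * Q) (by positivity) (2 ^ k) S fun q hq =>
        ⟨mem_box.1 (Finset.mem_filter.1 hq).1, (Finset.mem_filter.1 hq).2.2⟩
      push_cast at h1
      rw [← hQ, ← hn] at h1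
      have h2 : (S.card : ℝ) ≤ (4 * (c * Q)) * (3 * Q) ^ (n - 1) :=
        h1.trans (mul_le_mul (by linarith) (pow_le_pow_left₀ (by positivity) (by linarith) _)
          (by positivity) (by positivity))
      refine (mul_le_mul_of_nonneg_right h2 (by positivity)).trans (le_of_eq ?_)
      obtain ⟨N, hN⟩ := Nat.exists_eq_add_of_le' hn1
      rw [hc, hN, Nat.add_sub_cancel, mul_pow]
      field_simp
      ring
  set Near := {x | x ∈ Icc a b ∧ ∃ α ∈ {α : ℝ | ∃ q : ι → ℤ, q ≠ 0 ∧ supN q ≤ 2 ^ k ∧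
        dz (∑ i, (q i : ℝ) * (u i + α * v i)) = 0}, |x - α| ≤ (c * Q ^ (n + 1))⁻¹} with hNear
  have hcover : Icc a b ⊆ Near ∪ (Z k ∪ Y) := by
    intro x hx
    obtain ⟨q, hq0, hq1, hq2⟩ := dirichlet (fun i => u i + x * v i) (2 ^ k) Nat.one_le_two_pow
    push_cast at hq2
    rw [← hQ, ← hn] at hq2
    by_cases h1 : |∑ i, (q i : ℝ) * v i| ≤ T
    · refine Or.inr (Or.inl ⟨hx, q, ⟨hq0, h1, hq2.trans ?_⟩, hq2.trans ?_⟩)
      · have h2 : (0 : ℝ) < supN q := by exact_mod_cast one_le_supN hq0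
        refine inv_anti₀ (by positivity) (pow_le_pow_left₀ h2.le ?_ _)
        rw [hQ]; exact_mod_cast hq1
      · rw [one_div, inv_pow]
        exact inv_anti₀ hQ0 (le_self_pow₀ hQ1 (by omega))
    by_cases h2 : |∑ i, (q i : ℝ) * v i| ≤ c * Q
    · refine Or.inr (Or.inr (mem_biUnion (x := q) ?_ ⟨hx, hq2⟩))
      exact Finset.mem_coe.2 (Finset.mem_filter.2 ⟨mem_box.2 hq1, not_le.1 h1, h2⟩)
    left
    set γ := ∑ i, (q i : ℝ) * v i with hγ
    set w := ∑ i, (q i : ℝ) * (u i + x * v i) with hw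
    have h3 : c * Q < |γ| := not_le.1 h2
    have h4 : 0 < |γ| := lt_trans (by positivity) h3
    have h5 : γ ≠ 0 := abs_pos.1 h4
    refine ⟨hx, x - (w - round w) / γ, ⟨q, hq0, hq1, (dz_eq_zero_iff _).2 ⟨round w, ?_⟩⟩, ?_⟩
    · have : w = ∑ i, (q i : ℝ) * u i + γ * x := line_form u v q x
      rw [line_form, ← hγ, mul_sub, mul_div_cancel₀ _ h5]
      linarith
    · rw [sub_sub_cancel, abs_div, div_le_iff₀ h4]
      refine hq2.trans ?_
      calc (Q ^ n)⁻¹ = (c * Q ^ (n + 1))⁻¹ * (c * Q) := by field_simp; ring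
        _ ≤ _ := mul_le_mul_of_nonneg_left h3.le (by positivity)
  have h1 := (measure_mono (μ := volume) hcover).trans ((measure_union_le _ _).trans
    (add_le_add le_rfl ((measure_union_le _ _).trans (add_le_add hk1 hY))))
  rw [Real.volume_Icc, ← ENNReal.ofReal_add (by positivity) (by positivity), ← hl,
    show l = l / 2 + (l / 4 + l / 4) by ring,
    ENNReal.ofReal_add (by positivity) (by positivity)] at h1
  rw [show l / 2 + (l / 4 + l / 4) = l by ring] at h1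
  exact (ENNReal.add_le_add_iff_right ENNReal.ofReal_ne_top).1 h1

/-- The divergence statement on a line. -/
theorem line_div (i0 : ι) (u v : ι → ℝ) (hv : v i0 = 1) (ψ : ℕ → ℝ)
    (hpos : ∀ k, 1 ≤ k → 0 < ψ k) (hmono : ∀ k l, 1 ≤ k → k ≤ l → ψ l ≤ ψ k)
    (hdiv : ¬Summable fun k : ℕ => ((k + 1 : ℕ) : ℝ) ^ (Fintype.card ι - 1) * ψ (k + 1))
    (hT : ∀ T : ℕ, ∀ᵐ t : ℝ, {q : ι → ℤ | q ≠ 0 ∧ |∑ i, (q i : ℝ) * v i| ≤ T ∧
      dz (∑ i, (q i : ℝ) * (u i + t * v i)) ≤ ((supN q : ℝ) ^ Fintype.card ι)⁻¹}.Finite) :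
    ∀ᵐ t : ℝ, {q : ι → ℤ | q ≠ 0 ∧
      dz (∑ i, (q i : ℝ) * (u i + t * v i)) < ψ (supN q)}.Infinite := by
  have : Nonempty ι := ⟨i0⟩
  by_cases hA : ∃ q : ι → ℤ, q ≠ 0 ∧ ∑ i, (q i : ℝ) * v i = 0 ∧ dz (∑ i, (q i : ℝ) * u i) = 0
  · obtain ⟨q, h1, h2, h3⟩ := hA
    refine Eventually.of_forall fun t => infinite_of_exact (fun i => u i + t * v i) ψ hpos h1 ?_
    rw [line_form, h2, zero_mul, add_zero, h3]
  have hne : ∀ᵐ t : ℝ, ∀ q : ι → ℤ, q ≠ 0 → dz (∑ i, (q i : ℝ) * (u i + t * v i)) ≠ 0 := by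
    rw [ae_all_iff]
    intro q
    by_cases hq : q = 0
    · exact Eventually.of_forall fun t h => absurd hq h
    by_cases h2 : ∑ i, (q i : ℝ) * v i = 0
    · refine Eventually.of_forall fun t _ h => hA ⟨q, hq, h2, ?_⟩
      rwa [line_form, h2, zero_mul, add_zero] at h
    have h4 : ∀ᵐ t : ℝ, ∀ p : ℤ, t ≠ (p - ∑ i, (q i : ℝ) * u i) / ∑ i, (q i : ℝ) * v i :=
      ae_all_iff.2 fun p => by simp [ae_iff]
    filter_upwards [h4] with t ht _ h
    obtain ⟨p, hp⟩ := (dz_eq_zero_iff _).1 h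
    apply ht p
    rw [line_form] at hp
    rw [eq_div_iff h2]; linarith
  set n := Fintype.card ι with hn
  have hn1 : 1 ≤ n := Fintype.card_pos
  set c : ℝ := (32 * 3 ^ n)⁻¹ with hc
  have hc0 : 0 < c := by positivity
  have hc1 : c ≤ 1 := inv_le_one_of_one_le₀ (by
    have : (1 : ℝ) ≤ 3 ^ n := one_le_pow₀ (by norm_num)
    linarith)
  set C : ℝ := ∑ i, |v i| with hC
  have hC1 : 1 ≤ C := by
    have := Finset.single_le_sum (f := fun i => |v i|) (fun i _ => abs_nonneg _)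
      (Finset.mem_univ i0)
    simpa [hv] using this
  have hC0 : 0 < C := by linarith
  have hψ : ∀ t : ℕ, 0 < ψ (2 ^ t) := fun t => hpos _ Nat.one_le_two_pow
  have hU := ubiquity (fun t => {α : ℝ | ∃ q : ι → ℤ, q ≠ 0 ∧ supN q ≤ 2 ^ t ∧
      dz (∑ i, (q i : ℝ) * (u i + α * v i)) = 0})
    (fun t => (c * ((2 : ℝ) ^ t) ^ (n + 1))⁻¹)
    (fun t => min (ψ (2 ^ t)) (((2 : ℝ) ^ t) ^ n)⁻¹ / (C * 2 ^ t))
    (fun t => by positivity) (fun t => ?_) (fun t => ?_) (fun t => ?_) ?_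
    (fun a b hab => line_ubiquitous i0 u v hv hne hT hab)
  · filter_upwards [hU, hne] with x hx h1 hfin
    obtain ⟨δ, hδ0, -, hδ⟩ := exists_pos_le_of_finite hfin
      (fun q => dz (∑ i, (q i : ℝ) * (u i + x * v i)))
      fun q hq => lt_of_le_of_ne (dz_nonneg _) (h1 q hq.1).symm
    obtain ⟨M, hM⟩ := exists_pow_lt_of_lt_one hδ0 (y := (1 / 2 : ℝ)) (by norm_num)
    obtain ⟨t, ht, α, ⟨q, hq0, hq1, hq2⟩, hxα⟩ := hx M
    have hQ0 : (0 : ℝ) < 2 ^ t := by positivity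
    have h2 : |∑ i, (q i : ℝ) * v i| ≤ C * 2 ^ t := by
      refine (Finset.abs_sum_le_sum_abs _ _).trans ?_
      rw [hC, Finset.sum_mul]
      refine Finset.sum_le_sum fun i _ => ?_
      rw [abs_mul, mul_comm]
      refine mul_le_mul_of_nonneg_left ((abs_le_supN q i).trans ?_) (abs_nonneg _)
      exact_mod_cast hq1
    have h3 : dz (∑ i, (q i : ℝ) * (u i + x * v i)) < min (ψ (2 ^ t)) (((2 : ℝ) ^ t) ^ n)⁻¹ := by
      have h4 := dz_add_le (∑ i, (q i : ℝ) * (u i + α * v i)) ((∑ i, (q i : ℝ) * v i) * (x - α))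
      rw [hq2, zero_add, line_form, show ∑ i, (q i : ℝ) * u i + (∑ i, (q i : ℝ) * v i) * α +
        (∑ i, (q i : ℝ) * v i) * (x - α) = ∑ i, (q i : ℝ) * u i + (∑ i, (q i : ℝ) * v i) * x by
          ring, ← line_form, abs_mul] at h4
      refine lt_of_le_of_lt (h4.trans (mul_le_mul_of_nonneg_right h2 (abs_nonneg _))) ?_
      rw [lt_div_iff₀ (by positivity)] at hxα
      linarith
    have h4 := hδ q ⟨hq0, h3.trans_le ((min_le_left _ _).trans
      (hmono _ _ (one_le_supN hq0) hq1))⟩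
    have h5 : (((2 : ℝ) ^ t) ^ n)⁻¹ ≤ (1 / 2) ^ M := by
      refine le_trans ?_ (pow_le_pow_of_le_one (by norm_num) (by norm_num) ht)
      rw [one_div, inv_pow]
      exact inv_anti₀ hQ0 (le_self_pow₀ (one_le_pow₀ one_le_two) (by omega))
    have h6 := h3.trans_le (min_le_right _ _)
    linarith
  · have hQ0 : (0 : ℝ) < 2 ^ t := by positivity
    rw [div_eq_mul_inv, ← mul_inv]
    refine inv_anti₀ (by positivity) ?_
    rw [pow_succ (2 : ℝ) t, mul_pow, mul_assoc]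
    refine mul_le_mul_of_nonneg_left (mul_le_mul_of_nonneg_left ?_ (by positivity)) hc0.le
    exact le_self_pow₀ one_le_two (by omega)
  · have := hψ t
    positivity
  · have hQ0 : (0 : ℝ) < 2 ^ t := by positivity
    refine (div_le_div_of_nonneg_right (min_le_right _ _) (by positivity)).trans ?_
    rw [div_eq_mul_inv, ← mul_inv]
    refine inv_anti₀ (by positivity) ?_
    rw [pow_succ]
    have : 0 < ((2 : ℝ) ^ t) ^ n * 2 ^ t := by positivity
    nlinarith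
  · intro hs
    apply hdiv
    refine summable_of_dyadic hn1 ψ hpos hmono ?_
    have h1 : Summable fun t : ℕ => min (ψ (2 ^ t) * ((2 : ℝ) ^ t) ^ n) 1 := by
      refine (hs.mul_left (C / c)).congr fun t => ?_
      have hQ0 : (0 : ℝ) < (2 ^ t) ^ n := by positivity
      rw [← inv_mul_cancel₀ hQ0.ne', ← min_mul_of_nonneg _ _ hQ0.le]
      field_simp
      ring
    have h2 := h1.tendsto_atTop_zero.eventually (gt_mem_nhds one_pos)
    rw [← Nat.cofinite_eq_atTop] at h2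
    refine h1.congr_cofinite ?_
    filter_upwards [h2] with t ht
    exact min_eq_left (le_of_lt ((min_lt_iff.1 ht).resolve_right (lt_irrefl _)))

end Pool.Agent.P.MP_3ed42e_nt
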