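import Pool.Agent.P.MP_3ed42e_nt.Line

/-!
The convergence and the divergence statements for an affine subspace.
-/

namespace Pool.Agent.P.MP_3ed42e_nt

open MeasureTheory Set Filter Topology
open scoped ENNReal

variable {d m : ℕ}

/-- The last `m` coordinates of an integer vector. -/
def low (q : Fin (d + m) → ℤ) : Fin m → ℤ := fun j => q (Fin.natAdd d j)

/-- The gradient of `x ↦ q · pt A x`. -/
def grad (A : Matrix (Fin (d + 1)) (Fin m) ℝ) (q : Fin (d + m) → ℤ) (i : Fin d) : ℝ :=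
  q (Fin.castAdd m i) + (A.mulVec fun j => (low q j : ℝ)) i.succ

lemma dot_pt (A : Matrix (Fin (d + 1)) (Fin m) ℝ) (q : Fin (d + m) → ℤ) (x : Fin d → ℝ) :
    ∑ i, (q i : ℝ) * pt A x i =
      (A.mulVec fun j => (low q j : ℝ)) 0 + ∑ i, x i * grad A q i := by
  rw [Fin.sum_univ_add]
  simp only [pt, Fin.append_left, Fin.append_right, grad, low, Matrix.mulVec, Matrix.vecMul,
    dotProduct, Fin.sum_univ_succ, Matrix.cons_val_zero, Matrix.cons_val_succ, mul_add,
    Finset.sum_add_distrib, Finset.mul_sum, one_mul]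
  rw [Finset.sum_comm (s := Finset.univ) (t := Finset.univ)
    (f := fun (j : Fin m) (i : Fin d) => (q (Fin.natAdd d j) : ℝ) * (x i * A i.succ j))]
  have e1 : ∑ i, (q (Fin.castAdd m i) : ℝ) * x i = ∑ i, x i * (q (Fin.castAdd m i) : ℝ) :=
    Finset.sum_congr rfl fun _ _ => mul_comm _ _
  have e2 : ∑ j, (q (Fin.natAdd d j) : ℝ) * A 0 j = ∑ j, A 0 j * (q (Fin.natAdd d j) : ℝ) :=
    Finset.sum_congr rfl fun _ _ => mul_comm _ _
  have e3 : ∑ i, ∑ j, (q (Fin.natAdd d j) : ℝ) * (x i * A i.succ j) =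
      ∑ i, ∑ j, x i * (A i.succ j * (q (Fin.natAdd d j) : ℝ)) :=
    Finset.sum_congr rfl fun _ _ => Finset.sum_congr rfl fun _ _ => by ring
  rw [e1, e2, e3]
  ring

/-- The integer vectors with given last coordinates and possibly small gradient. -/
noncomputable def upset (A : Matrix (Fin (d + 1)) (Fin m) ℝ) (r : Fin m → ℤ) :
    Finset (Fin (d + m) → ℤ) :=
  (Fintype.piFinset fun i : Fin d => Finset.Icc ⌊-(A.mulVec fun j => (r j : ℝ)) i.succ⌋
    (⌊-(A.mulVec fun j => (r j : ℝ)) i.succ⌋ + 1)).image fun s => Fin.append s r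

lemma card_upset (A : Matrix (Fin (d + 1)) (Fin m) ℝ) (r : Fin m → ℤ) :
    (upset A r).card ≤ 2 ^ d := by
  refine Finset.card_image_le.trans (le_of_eq ?_)
  rw [Fintype.card_piFinset]
  have : ∀ z : ℤ, (Finset.Icc z (z + 1)).card = 2 := fun z => by rw [Int.card_Icc]; omega
  simp [this]

lemma mem_upset (A : Matrix (Fin (d + 1)) (Fin m) ℝ) {q : Fin (d + m) → ℤ}
    (hq : ∀ i, |grad A q i| < 1) : q ∈ upset A (low q) := by
  refine Finset.mem_image.2 ⟨fun i => q (Fin.castAdd m i), ?_, Fin.append_castAdd_natAdd⟩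
  rw [Fintype.mem_piFinset]
  intro i
  have h := abs_lt.1 (hq i)
  simp only [grad] at h
  set z := (A.mulVec fun j => (low q j : ℝ)) i.succ
  have h1 := Int.floor_le (-z)
  have h2 := Int.lt_floor_add_one (-z)
  rw [Finset.mem_Icc]
  constructor
  · have : (⌊-z⌋ : ℝ) < q (Fin.castAdd m i) + 1 := by linarith
    have : ⌊-z⌋ < q (Fin.castAdd m i) + 1 := by exact_mod_cast this
    omega
  · have : (q (Fin.castAdd m i) : ℝ) < ⌊-z⌋ + 2 := by linarith
    have : q (Fin.castAdd m i) < ⌊-z⌋ + 2 := by exact_mod_cast this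
    omega

lemma low_ne_zero (A : Matrix (Fin (d + 1)) (Fin m) ℝ) {q : Fin (d + m) → ℤ} (hq0 : q ≠ 0)
    (hq : ∀ i, |grad A q i| < 1) : low q ≠ 0 := by
  intro h
  apply hq0
  funext i
  refine Fin.addCases (fun i => ?_) (fun j => congrFun h j) i
  have h1 := hq i
  simp only [grad, h, Pi.zero_apply, Int.cast_zero, Matrix.mulVec, dotProduct, mul_zero,
    Finset.sum_const_zero, add_zero] at h1
  rw [← Int.cast_abs] at h1
  have : |q (Fin.castAdd m i)| < 1 := by exact_mod_cast h1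
  simpa using Int.abs_lt_one_iff.1 this

lemma large_grad (A : Matrix (Fin (d + 1 + 1)) (Fin m) ℝ) (η : (Fin (d + 1 + m) → ℤ) → ℝ)
    (hη0 : ∀ q, 0 ≤ η q) (hη : Summable η) :
    ∀ᵐ x : Fin (d + 1) → ℝ,
      {q | (∃ i, 1 ≤ |grad A q i|) ∧ dz (∑ i, (q i : ℝ) * pt A x i) ≤ η q}.Finite := by
  refine ae_finite_of_summable
    (fun q => {x | (∃ i, 1 ≤ |grad A q i|) ∧ dz (∑ i, (q i : ℝ) * pt A x i) ≤ η q}) fun R =>
    ⟨_, hη.mul_left ((2 * (R : ℝ)) ^ d * (4 * R + 4)), fun q => mul_nonneg (by positivity) (hη0 q),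
      fun q => ?_⟩
  by_cases h : ∃ i, 1 ≤ |grad A q i|
  · obtain ⟨i, hi⟩ := h
    have h0 : 0 < |grad A q i| := by linarith
    have h1 := slab (R := R) (α := (A.mulVec fun j => (low q j : ℝ)) 0) (by positivity) (hη0 q)
      (grad A q) i (abs_pos.1 h0)
    refine le_trans (measure_mono ?_) (h1.trans (ENNReal.ofReal_le_ofReal ?_))
    · intro x hx
      refine ⟨hx.1, ?_⟩
      rw [← dot_pt]; exact hx.2.2
    · rw [mul_assoc ((2 * (R : ℝ)) ^ d)]
      refine mul_le_mul_of_nonneg_left ?_ (by positivity)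
      have : 4 * η q / |grad A q i| ≤ 4 * η q := div_le_self (by linarith [hη0 q]) hi
      linarith
  · refine le_of_eq_of_le (measure_mono_null (t := ∅) (fun x hx => h hx.2.1) measure_empty) ?_
    exact zero_le

lemma small_grad (A : Matrix (Fin (d + 1 + 1)) (Fin m) ℝ) (hm : 1 ≤ m)
    (hA : dioExp A < ((d + 1 + m : ℕ) : EReal)) {C : ℝ} (hC : 0 < C) :
    ∀ᵐ x : Fin (d + 1) → ℝ, {q | q ≠ 0 ∧ (∀ i, |grad A q i| < 1) ∧
      dz (∑ i, (q i : ℝ) * pt A x i) ≤ C * ((supN q : ℝ) ^ (d + 1 + m))⁻¹}.Finite := by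
  classical
  obtain ⟨w, c, hw1, hw2, hc, hlb⟩ := lower_bound A (d + 1 + m) (by omega) hA
  have hkey := summable_key A hw1 hw2 hc hlb
  set n := d + 1 + m with hn
  set h : (Fin m → ℤ) → ℝ := fun r => if r = 0 then 0 else ((supN r : ℝ) ^ n)⁻¹ / nA A r with hh
  have hpos : ∀ q : Fin m → ℤ, q ≠ 0 → 0 < nA A q := fun q hq => by
    refine lt_of_lt_of_le (mul_pos hc (Real.rpow_pos_of_pos ?_ _)) (hlb q hq)
    exact_mod_cast one_le_supN hq
  have hh0 : ∀ r, 0 ≤ h r := fun r => by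
    simp only [hh]
    split_ifs
    · exact le_rfl
    · exact div_nonneg (by positivity) (nA_nonneg A r)
  have hbad : {r | ¬h r < (2 * C)⁻¹}.Finite :=
    hkey.tendsto_cofinite_zero.eventually (gt_mem_nhds (by positivity))
  have hbad2 : (⋃ r ∈ {r | ¬h r < (2 * C)⁻¹}, (upset A r : Set (Fin n → ℤ))).Finite :=
    hbad.biUnion fun r _ => (upset A r).finite_toSet
  have hs : Summable fun q : Fin n → ℤ => if ∀ i, |grad A q i| < 1 then h (low q) else 0 := by
    refine summable_of_fibres _ (fun q => ?_) low _ (hkey.mul_left (2 ^ (d + 1))) fun r u hu => ?_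
    · split_ifs
      · exact hh0 _
      · exact le_rfl
    rw [← Finset.sum_filter]
    refine (Finset.sum_le_card_nsmul _ _ (h r) fun q hq => ?_).trans ?_
    · rw [hu q (Finset.mem_filter.1 hq).1]
    · rw [nsmul_eq_mul]
      refine mul_le_mul_of_nonneg_right ?_ (hh0 r)
      have h1 : (u.filter fun q => ∀ i, |grad A q i| < 1) ⊆ upset A r := fun q hq => by
        rw [← hu q (Finset.mem_filter.1 hq).1]
        exact mem_upset A (Finset.mem_filter.1 hq).2
      exact_mod_cast (Finset.card_le_card h1).trans (card_upset A r)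
  have hae := ae_finite_of_summable (fun q : Fin n → ℤ => {x : Fin (d + 1) → ℝ |
    (q ≠ 0 ∧ (∀ i, |grad A q i| < 1) ∧ h (low q) < (2 * C)⁻¹) ∧
      dz (∑ i, (q i : ℝ) * pt A x i) ≤ C * ((supN (low q) : ℝ) ^ n)⁻¹}) fun R =>
    ⟨_, hs.mul_left ((2 * (R : ℝ)) ^ d * (4 * R + 8 * ((d + 1) * R + 1)) * C), fun q => ?_,
      fun q => ?_⟩
  · filter_upwards [hae] with x hx
    refine (hx.union hbad2).subset ?_
    rintro q ⟨h1, h2, h3⟩
    by_cases h4 : h (low q) < (2 * C)⁻¹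
    · refine Or.inl ⟨⟨h1, h2, h4⟩, h3.trans (mul_le_mul_of_nonneg_left ?_ hC.le)⟩
      have h5 : (0 : ℝ) < supN (low q) := by exact_mod_cast one_le_supN (low_ne_zero A h1 h2)
      refine inv_anti₀ (by positivity) (pow_le_pow_left₀ h5.le ?_ _)
      exact_mod_cast supN_comp_le q _
    · exact Or.inr (mem_biUnion (x := low q) h4 (mem_upset A h2))
  · refine mul_nonneg (by positivity) ?_
    split_ifs
    · exact hh0 _
    · exact le_rfl
  set E := {x : Fin (d + 1) → ℝ | x ∈ Metric.closedBall 0 (R : ℝ) ∧ x ∈ {x : Fin (d + 1) → ℝ |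
    (q ≠ 0 ∧ (∀ i, |grad A q i| < 1) ∧ h (low q) < (2 * C)⁻¹) ∧
      dz (∑ i, (q i : ℝ) * pt A x i) ≤ C * ((supN (low q) : ℝ) ^ n)⁻¹}} with hE
  rcases E.eq_empty_or_nonempty with h0 | ⟨x, hx1, ⟨h1, h2, h3⟩, hx2⟩
  · rw [h0, measure_empty]; exact zero_le
  have hr := low_ne_zero A h1 h2
  have hN := hpos _ hr
  have hN1 := nA_le_half A (low q)
  set η := C * ((supN (low q) : ℝ) ^ n)⁻¹ with hη
  have hη0 : 0 ≤ η := by positivity
  have hhq : h (low q) = ((supN (low q) : ℝ) ^ n)⁻¹ / nA A (low q) := if_neg hr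
  have hη1 : η ≤ nA A (low q) / 2 := by
    rw [hhq, div_lt_iff₀ hN] at h3
    have := mul_lt_mul_of_pos_left h3 hC
    have e : C * ((2 * C)⁻¹ * nA A (low q)) = nA A (low q) / 2 := by field_simp
    linarith
  obtain ⟨i, -, hi⟩ := Finset.exists_max_image Finset.univ (fun i => |grad A q i|)
    Finset.univ_nonempty
  set G := |grad A q i| with hG
  have hG0 : 0 ≤ G := abs_nonneg _
  have hR0 : (0 : ℝ) ≤ R := by positivity
  have hdR : (0 : ℝ) ≤ (d + 1) * R := by positivity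
  have hlow : nA A (low q) ≤ η + ((d + 1) * R + 1) * G := by
    refine dzv_le _ fun k => ?_
    refine Fin.cases ?_ (fun k => ?_) k
    · have h4 := dz_add_le (∑ i, (q i : ℝ) * pt A x i) (-∑ i, x i * grad A q i)
      rw [dot_pt, add_neg_cancel_right, ← dot_pt, abs_neg] at h4
      have h5 : |∑ i, x i * grad A q i| ≤ (d + 1) * R * G := by
        refine (Finset.abs_sum_le_sum_abs _ _).trans
          ((Finset.sum_le_card_nsmul _ _ (R * G) fun j _ => ?_).trans (le_of_eq ?_))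
        · rw [abs_mul]
          rw [mem_closedBall_zero_iff, pi_norm_le_iff_of_nonneg hR0] at hx1
          exact mul_le_mul (hx1 j) (hi j (Finset.mem_univ j)) (abs_nonneg _) hR0
        · simp [mul_assoc]
      nlinarith
    · have h4 := dz_le_abs (grad A q k)
      rw [grad, dz_int_add, ← grad] at h4
      have h5 := hi k (Finset.mem_univ k)
      nlinarith
  have hG1 : nA A (low q) ≤ 2 * (((d + 1) * R + 1) * G) := by linarith
  have hG2 : 0 < G := by
    by_contra hle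
    have : G = 0 := le_antisymm (not_lt.1 hle) hG0
    rw [this] at hG1; linarith
  have h4 := slab (R := R) (α := (A.mulVec fun j => (low q j : ℝ)) 0) hR0 hη0
    (grad A q) i (abs_pos.1 hG2)
  refine le_trans (measure_mono ?_) (h4.trans (ENNReal.ofReal_le_ofReal ?_))
  · intro x hx
    refine ⟨hx.1, ?_⟩
    rw [← dot_pt]; exact hx.2.2
  · rw [if_pos h2, hhq, mul_assoc _ C, mul_assoc ((2 * (R : ℝ)) ^ d), ← hG]
    refine mul_le_mul_of_nonneg_left ?_ (by positivity)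
    rw [← mul_div_assoc, ← hη, ← mul_div_assoc, le_div_iff₀ hN, add_mul, add_mul]
    refine add_le_add ?_ ?_
    · have : 0 ≤ η * R := by positivity
      nlinarith
    · rw [div_mul_eq_mul_div, div_le_iff₀ hG2]
      nlinarith

lemma psi_bound {n : ℕ} (hn : 1 ≤ n) (ψ : ℕ → ℝ) (hpos : ∀ k, 1 ≤ k → 0 < ψ k)
    (hmono : ∀ k l, 1 ≤ k → k ≤ l → ψ l ≤ ψ k)
    (hs : Summable fun k : ℕ => ((k + 1 : ℕ) : ℝ) ^ (n - 1) * ψ (k + 1)) :
    ∃ C : ℝ, 0 < C ∧ ∀ k, 1 ≤ k → ψ k ≤ C * ((k : ℝ) ^ n)⁻¹ := by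
  set S := ∑' k : ℕ, ((k + 1 : ℕ) : ℝ) ^ (n - 1) * ψ (k + 1) with hS
  have hnn : ∀ k : ℕ, 0 ≤ ((k + 1 : ℕ) : ℝ) ^ (n - 1) * ψ (k + 1) := fun k =>
    mul_nonneg (by positivity) (hpos _ (by omega)).le
  have hS0 : 0 ≤ S := tsum_nonneg hnn
  have h1 : ∀ k : ℕ, (k : ℝ) ^ n ≤ n * ∑ j ∈ Finset.range k, ((j + 1 : ℕ) : ℝ) ^ (n - 1) := by
    intro k
    induction k with
    | zero => simp [zero_pow (by omega : n ≠ 0)]
    | succ k ih =>
      have h2 := abs_pow_sub_pow_le ((k + 1 : ℕ) : ℝ) (k : ℝ) n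
      have hk : (0 : ℝ) ≤ k := by positivity
      rw [abs_of_nonneg (a := ((k + 1 : ℕ) : ℝ)) (by positivity), abs_of_nonneg hk,
        max_eq_left (by push_cast; linarith),
        show ((k + 1 : ℕ) : ℝ) - k = 1 by push_cast; ring, abs_one, one_mul] at h2
      have h3 := le_abs_self (((k + 1 : ℕ) : ℝ) ^ n - (k : ℝ) ^ n)
      rw [Finset.sum_range_succ, mul_add]
      linarith
  refine ⟨n * S + 1, by positivity, fun k hk => ?_⟩
  have hk0 : (0 : ℝ) < (k : ℝ) ^ n := by positivity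
  rw [← div_eq_mul_inv, le_div_iff₀ hk0]
  have h2 : ψ k * ∑ j ∈ Finset.range k, ((j + 1 : ℕ) : ℝ) ^ (n - 1) ≤ S := by
    refine le_trans ?_ (hs.sum_le_tsum (Finset.range k) fun j _ => hnn j)
    rw [Finset.mul_sum]
    refine Finset.sum_le_sum fun j hj => ?_
    rw [mul_comm]
    exact mul_le_mul_of_nonneg_left (hmono _ _ (by omega) (Finset.mem_range.1 hj))
      (by positivity)
  have h3 := mul_le_mul_of_nonneg_left (h1 k) (hpos k hk).le
  have h4 := mul_le_mul_of_nonneg_left h2 (Nat.cast_nonneg (α := ℝ) n)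
  nlinarith

theorem convergence (A : Matrix (Fin (d + 1 + 1)) (Fin m) ℝ) (hm : 1 ≤ m)
    (hA : dioExp A < ((d + 1 + m : ℕ) : EReal)) (ψ : ℕ → ℝ) (hpos : ∀ k, 1 ≤ k → 0 < ψ k)
    (hmono : ∀ k l, 1 ≤ k → k ≤ l → ψ l ≤ ψ k)
    (hs : Summable fun k : ℕ => ((k + 1 : ℕ) : ℝ) ^ (d + 1 + m - 1) * ψ (k + 1)) :
    volume {x : Fin (d + 1) → ℝ | pt A x ∈ dualApprox (d + 1 + m) ψ} = 0 := by
  obtain ⟨C, hC, hψ⟩ := psi_bound (by omega) ψ hpos hmono hs
  have h1 := summable_radial (ι := Fin (d + 1 + m)) ψ (fun k => (hpos _ (by omega)).le)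
    (by rwa [Fintype.card_fin])
  have h2 := large_grad A _ (fun q => ?_) h1
  swap
  · split_ifs with h
    · exact le_rfl
    · exact (hpos _ (one_le_supN h)).le
  rw [measure_eq_zero_iff_ae_notMem]
  filter_upwards [h2, small_grad A hm hA hC] with x h3 h4 hx
  refine hx ((h3.union h4).subset ?_)
  rintro q ⟨h5, h6⟩
  by_cases h : ∃ i, 1 ≤ |grad A q i|
  · exact Or.inl ⟨h, by rw [if_neg h5]; exact h6.le⟩
  · push Not at h
    exact Or.inr ⟨h5, h, h6.le.trans (hψ _ (one_le_supN h5))⟩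

/-- Direction of the lines parallel to the first coordinate axis. -/
def dir (A : Matrix (Fin (d + 1 + 1)) (Fin m) ℝ) : Fin (d + 1 + m) → ℝ :=
  Fin.append (Fin.cons 1 0 : Fin (d + 1) → ℝ) (A (Fin.succ 0))

lemma pt_cons (A : Matrix (Fin (d + 1 + 1)) (Fin m) ℝ) (t : ℝ) (y : Fin d → ℝ)
    (i : Fin (d + 1 + m)) :
    pt A (Fin.cons t y) i = pt A (Fin.cons 0 y) i + t * dir A i := by
  refine Fin.addCases (fun i => ?_) (fun j => ?_) i
  · simp only [pt, dir, Fin.append_left]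
    refine Fin.cases ?_ (fun i => ?_) i <;> simp
  · simp only [pt, dir, Fin.append_right, Matrix.vecMul, dotProduct, Fin.sum_univ_succ,
      Matrix.cons_val_zero, Matrix.cons_val_succ, Fin.cons_zero, Fin.cons_succ]
    ring

lemma measurableSet_dual (A : Matrix (Fin (d + 1)) (Fin m) ℝ) (ψ : ℕ → ℝ) :
    MeasurableSet {x : Fin d → ℝ | pt A x ∈ dualApprox (d + m) ψ} := by
  have h : Measurable fun x : Fin d → ℝ => {q : Fin (d + m) → ℤ | q ≠ 0 ∧
      dz (∑ i, (q i : ℝ) * pt A x i) < ψ (supN q)} := by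
    rw [measurable_set_iff]
    intro q
    refine measurable_const.and ?_
    simp only [dot_pt]
    exact measurableSet_setOfPred.1 (measurableSet_lt (measurable_form _ _) measurable_const)
  exact h MeasurableSet.setOfPred_infinite

theorem divergence (A : Matrix (Fin (d + 1 + 1)) (Fin m) ℝ) (hm : 1 ≤ m)
    (hA : dioExp A < ((d + 1 + m : ℕ) : EReal)) (ψ : ℕ → ℝ) (hpos : ∀ k, 1 ≤ k → 0 < ψ k)
    (hmono : ∀ k l, 1 ≤ k → k ≤ l → ψ l ≤ ψ k)
    (hs : ¬Summable fun k : ℕ => ((k + 1 : ℕ) : ℝ) ^ (d + 1 + m - 1) * ψ (k + 1)) :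
    volume {x : Fin (d + 1) → ℝ | pt A x ∉ dualApprox (d + 1 + m) ψ} = 0 := by
  have hv : dir A (Fin.castAdd m 0) = 1 := by simp [dir]
  have h1 : ∀ T : ℕ, ∀ᵐ x : Fin (d + 1) → ℝ, {q : Fin (d + 1 + m) → ℤ | q ≠ 0 ∧
      |∑ i, (q i : ℝ) * dir A i| ≤ T ∧
      dz (∑ i, (q i : ℝ) * pt A x i) ≤ ((supN q : ℝ) ^ (d + 1 + m))⁻¹}.Finite := by
    intro T
    have h2 := summable_small_slope (Fin.castAdd m 0) (dir A) hv
      (by rw [Fintype.card_fin]; omega) (X := T) (by positivity)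
    rw [Fintype.card_fin] at h2
    have h3 := large_grad A _ (fun q => ?_) h2
    swap
    · split_ifs
      · positivity
      · exact le_rfl
    filter_upwards [h3, small_grad A hm hA one_pos] with x h4 h5
    refine (h4.union h5).subset ?_
    rintro q ⟨h6, h7, h8⟩
    by_cases h : ∃ i, 1 ≤ |grad A q i|
    · exact Or.inl ⟨h, by rw [if_pos ⟨h6, h7⟩]; exact h8⟩
    · push Not at h
      exact Or.inr ⟨h6, h, by rwa [one_mul]⟩
  have hp0 := (volume_preserving_piFinSuccAbove (fun _ : Fin (d + 1) => ℝ) 0).symm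
  rw [Measure.volume_eq_prod] at hp0
  have hp : MeasurePreserving (fun z : (Fin d → ℝ) × ℝ => (Fin.cons z.2 z.1 : Fin (d + 1) → ℝ))
      (volume.prod volume) volume := by
    have h := hp0.comp Measure.measurePreserving_swap
    have e : (fun z : (Fin d → ℝ) × ℝ => (Fin.cons z.2 z.1 : Fin (d + 1) → ℝ)) =
        (MeasurableEquiv.piFinSuccAbove (fun _ : Fin (d + 1) => ℝ) 0).symm ∘ Prod.swap := by
      funext z
      simp [MeasurableEquiv.piFinSuccAbove_symm_apply, Fin.consEquiv]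
    rw [e]
    exact h
  have h2 := Measure.ae_ae_of_ae_prod (hp.quasiMeasurePreserving.ae (ae_all_iff.2 h1))
  have hS := (measurableSet_dual A ψ).compl
  change volume {x : Fin (d + 1) → ℝ | pt A x ∈ dualApprox (d + 1 + m) ψ}ᶜ = 0
  rw [← hp.measure_preimage hS.nullMeasurableSet, Measure.measure_prod_null (hp.measurable hS)]
  filter_upwards [h2] with y hy
  have h3 := line_div (Fin.castAdd m 0) (pt A (Fin.cons 0 y)) (dir A) hv ψ hpos hmono
    (by rwa [Fintype.card_fin]) fun T => by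
      filter_upwards [hy] with t ht
      simpa only [Fintype.card_fin, ← pt_cons] using ht T
  rw [Pi.zero_apply, measure_eq_zero_iff_ae_notMem]
  filter_upwards [h3] with t ht hx
  apply hx
  simp only [← pt_cons] at ht
  exact ht

end Pool.Agent.P.MP_3ed42e_nt
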